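import Pool.Agent.X238.Osr.Form

set_option autoImplicit false

/-!
# The rewrite system
-/

namespace Pool.Agent.X238.Osr

open Function

deriving instance Fintype for Cst

/-- function symbols -/
inductive Fs (Nd : Type) : Type
  | c (x : Cst)
  | s
  | B
  | nd (a : Nd)
  deriving Fintype

/-- indices of the rules -/
inductive Idx (Nd : Type) (K : ℕ) : Type
  | cut0 (b : Bool)
  | cut1
  | m0
  | m1
  | cE
  | cO (i : ZMod 5)
  | c0 (i : ZMod 6)
  | c1 (i : ZMod 7)
  | cM (i : ZMod 8)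
  | fin (a b : Nd) (j : Fin (K + 1))
  | gs (q : Fs Nd)
  | greg (a : Nd) (j : Fin (K + 1)) (q : Fs Nd)
  | ghl (a : Nd) (q : Fs Nd)
  | gtl (a : Nd) (q : Fs Nd)
  | gnx (a : Nd) (o : Option Bool) (b : Nd)
  | ginc (a b : Nd) (d : Bool)
  | gdec (a b : Nd) (d : Bool)
  | gst (j : Fin (K + 1))
  | sB
  | Bs
  | Bz (b : Bool)
  | pr (o : Option Bool)
  | ns
  | nz (b : Bool)
  | zz (b : Bool)
  | bb
  | col (q : Fs Nd)
  | cst
  | chn (i : Fin 6)
  deriving Fintype

/-- arities -/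
def arr (Nd : Type) (K : ℕ) : Fs Nd → ℕ
  | .c _ => 0
  | .s => 1
  | .B => 1
  | .nd _ => K + 2

variable {Nd : Type} {K : ℕ}

/-- application of a symbol -/
def bld : (f : Fs Nd) → (Fin (arr Nd K f) → G Nd K) → G Nd K
  | .c x, _ => .c x
  | .s, g => .s (g (0 : Fin 1))
  | .B, g => .B (g (0 : Fin 1))
  | .nd a, g => .nd a (fun j => g (Fin.castSucc j : Fin (K + 2))) (g (Fin.last (K + 1)))

/-- value of a term with variables -/
def ev {V : Type} (σ : V → G Nd K) : Tm (Fs Nd) (arr Nd K) V → G Nd K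
  | .var v => σ v
  | .app f ts => bld f fun i => ev σ (ts i)

/-- from general terms -/
abbrev toG : Gr (Fs Nd) (arr Nd K) → G Nd K := ev Empty.elim

section terms

variable {V : Type}

/-- constants -/
def tc (x : Cst) : Tm (Fs Nd) (arr Nd K) V := .app (.c x) Fin.elim0

/-- the symbol `s` -/
def tS (t : Tm (Fs Nd) (arr Nd K) V) : Tm (Fs Nd) (arr Nd K) V := .app .s fun _ => t

/-- the symbol `B` -/
def tB (t : Tm (Fs Nd) (arr Nd K) V) : Tm (Fs Nd) (arr Nd K) V := .app .B fun _ => t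

/-- nodes -/
def tN (a : Nd) (u : Fin (K + 1) → Tm (Fs Nd) (arr Nd K) V) (z : Tm (Fs Nd) (arr Nd K) V) :
    Tm (Fs Nd) (arr Nd K) V :=
  .app (.nd a) (Fin.snoc (n := K + 1) (α := fun _ => Tm (Fs Nd) (arr Nd K) V) u z)

@[simp] theorem ev_tc (σ : V → G Nd K) (x : Cst) : ev σ (tc x) = .c x := rfl
@[simp] theorem ev_tS (σ : V → G Nd K) (t : Tm (Fs Nd) (arr Nd K) V) :
    ev σ (tS t) = .s (ev σ t) := rfl
@[simp] theorem ev_tB (σ : V → G Nd K) (t : Tm (Fs Nd) (arr Nd K) V) :
    ev σ (tB t) = .B (ev σ t) := rfl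
@[simp] theorem ev_tN (σ : V → G Nd K) (a : Nd) (u : Fin (K + 1) → Tm (Fs Nd) (arr Nd K) V)
    (z : Tm (Fs Nd) (arr Nd K) V) : ev σ (tN a u z) = .nd a (fun j => ev σ (u j)) (ev σ z) := by
  simp only [tN, ev, bld]
  congr 1
  · funext j
    exact congrArg (ev σ) (Fin.snoc_castSucc (α := fun _ => Tm (Fs Nd) (arr Nd K) V) z u j)
  · exact congrArg (ev σ) (Fin.snoc_last (α := fun _ => Tm (Fs Nd) (arr Nd K) V) z u)

end terms

/-- to general terms -/
def ofG : G Nd K → Gr (Fs Nd) (arr Nd K)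
  | .c x => tc x
  | .s t => tS (ofG t)
  | .B t => tB (ofG t)
  | .nd a u z => tN a (fun j => ofG (u j)) (ofG z)

theorem toG_ofG (g : G Nd K) : toG (ofG g) = g := by
  induction g with
  | c x => rfl
  | s t ih => exact congrArg G.s ih
  | B t ih => exact congrArg G.B ih
  | nd a u z ih1 ih2 =>
    simp only [ofG, ev_tN]
    congr 1
    funext j
    exact ih1 j

theorem ofG_bld (f : Fs Nd) (g : Fin (arr Nd K f) → G Nd K) :
    ofG (bld f g) = .app f fun i => ofG (g i) := by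
  cases f with
  | c x =>
    simp only [bld, ofG, tc]
    congr 1
    funext i
    exact i.elim0
  | s =>
    simp only [bld, ofG, tS]
    congr 1
    funext i
    rw [show i = (0 : Fin 1) from Subsingleton.elim (α := Fin 1) _ _]
  | B =>
    simp only [bld, ofG, tB]
    congr 1
    funext i
    rw [show i = (0 : Fin 1) from Subsingleton.elim (α := Fin 1) _ _]
  | nd a =>
    simp only [bld, ofG, tN]
    congr 1
    funext i
    refine Fin.lastCases (n := K + 1) ?_ (fun j => ?_) i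
    · exact Fin.snoc_last (α := fun _ => Gr (Fs Nd) (arr Nd K)) _ _
    · exact Fin.snoc_castSucc (α := fun _ => Gr (Fs Nd) (arr Nd K)) _ _ j

theorem ofG_ev {V : Type} (σ : V → G Nd K) (t : Tm (Fs Nd) (arr Nd K) V) :
    ofG (ev σ t) = t.subst fun v => ofG (σ v) := by
  induction t with
  | var v => rfl
  | app f ts ih =>
    simp only [ev, Tm.subst, ofG_bld]
    congr 1
    funext i
    exact ih i

theorem ofG_toG (t : Gr (Fs Nd) (arr Nd K)) : ofG (toG t) = t := by
  induction t with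
  | var v => exact v.elim
  | app f ts ih =>
    simp only [toG, ev, ofG_bld]
    congr 1
    funext i
    exact ih i

theorem ev_subst {V W : Type} (τ : W → G Nd K) (σ : V → Tm (Fs Nd) (arr Nd K) W)
    (t : Tm (Fs Nd) (arr Nd K) V) : ev τ (t.subst σ) = ev (fun v => ev τ (σ v)) t := by
  induction t with
  | var v => rfl
  | app f ts ih =>
    simp only [ev, Tm.subst]
    congr 1
    funext i
    exact ih i

/-! ### the rules -/

/-- variables -/
abbrev Xs : Fin (K + 1) → Tm (Fs Nd) (arr Nd K) ℕ := fun j => .var (Nat.pair 0 j)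
/-- variables -/
abbrev Ys : Fin (K + 1) → Tm (Fs Nd) (arr Nd K) ℕ := fun j => .var (Nat.pair 1 j)
/-- variable -/
abbrev Zv : Tm (Fs Nd) (arr Nd K) ℕ := .var (Nat.pair 2 0)
/-- variable -/
abbrev Xv : Tm (Fs Nd) (arr Nd K) ℕ := .var (Nat.pair 2 1)

/-- a symbol applied to variables -/
def tQ (q : Fs Nd) : Tm (Fs Nd) (arr Nd K) ℕ := .app q fun i => .var (Nat.pair 3 i)

/-- beginning of a number -/
def pt (o : Option Bool) : Tm (Fs Nd) (arr Nd K) ℕ := match o with
  | some d => tc (.z d)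
  | none => tS Xv

/-- shift -/
def tsh (b : Bool) (t : Tm (Fs Nd) (arr Nd K) ℕ) : Tm (Fs Nd) (arr Nd K) ℕ := match b with
  | true => tS t
  | false => t

variable (M : AM Nd K)

open Classical in
/-- the rules -/
noncomputable def rl : Idx Nd K → Tm (Fs Nd) (arr Nd K) ℕ × Tm (Fs Nd) (arr Nd K) ℕ
  | .cut0 b => (tc (.z b), tc (.k0 0))
  | .cut1 => (tS Xv, tc (.k1 0))
  | .m0 => (tc (.k0 0), tc (.mm 0))
  | .m1 => (tc (.k1 0), tc (.mm 0))
  | .cE => (tc .E, tc .E)
  | .cO i => (tc (.om i), tc (.om (i + 1)))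
  | .c0 i => (tc (.k0 i), tc (.k0 (i + 1)))
  | .c1 i => (tc (.k1 i), tc (.k1 (i + 1)))
  | .cM i => (tc (.mm i), tc (.mm (i + 1)))
  | .fin a b j => (tN a (update Xs j (tsh (M.al a j) Xv))
      (tN b (update Ys j (tsh (M.be a j) Xv)) Zv), tc .E)
  | .gs q => (tS (tQ q), tc (.om 0))
  | .greg a j q => (tN a (update Xs j (tQ q)) Zv, tc (.om 0))
  | .ghl a q => (tN a Xs (tQ q), tc (.om 0))
  | .gtl a q => (tN a Xs (tQ q), tc (.om 0))
  | .gnx a o b => (tN a (update Xs (M.q a) (pt o)) (tN b Ys Zv), tc (.om 0))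
  | .ginc a b d => (tN a Xs (tN b (update Ys (M.q a) (tc (.z d))) Zv), tc (.om 0))
  | .gdec a b d => (tN a (update Xs (M.q a) (tc (.z d)))
      (tN b (update Ys (M.q a) (tS Xv)) Zv), tc (.om 0))
  | .gst j => (tN M.st (update Xs j (tS Xv)) Zv, tc (.om 0))
  | .sB => (tS Xv, tB Xv)
  | .Bs => (tB (tS Xv), tS Xv)
  | .Bz b => (tB (tc (.z b)), tc (.z b))
  | .pr o => (tN M.st (update Xs 0 (pt o)) Zv, pt o)
  | .ns => (tS Xv, tc (.ch 1))
  | .nz b => (tc (.z b), tc (.ch 1))
  | .zz b => (tc (.z b), tc (.ch 0))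
  | .bb => (tB Xv, tc (.ch 3))
  | .col q => (tQ q, tc (.ch 5))
  | .cst => (tN M.st Xs Zv, tc (.ch 6))
  | .chn i => (tc (.ch i.succ), tc (.ch i.castSucc))

/-- symbols of numbers -/
def numF : Fs Nd → Bool
  | .s => true
  | .c (.z _) => true
  | _ => false

/-- conditions -/
def ok : Idx Nd K → Prop
  | .gs q => numF q = false
  | .greg _ _ q => numF q = false
  | .ghl a q => M.hl a = true ∧ q ≠ .c .nil
  | .gtl a q => M.hl a = false ∧ ∀ b, q ≠ .nd b
  | .gnx a o b => M.hl a = false ∧ b ≠ M.nx a o.isSome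
  | .ginc a _ _ => M.op a = .inc
  | .gdec a _ _ => M.op a = .dec
  | .gst j => j ≠ 0
  | .col q => (∀ i, q ≠ .c (.ch i)) ∧ q ≠ .nd M.st
  | _ => True

/-- the rewrite system -/
def RS : Set (Tm (Fs Nd) (arr Nd K) ℕ × Tm (Fs Nd) (arr Nd K) ℕ) :=
  {p | ∃ i, ok M i ∧ rl M i = p}

theorem rs_finite [Finite Nd] : (RS M).Finite := by
  have := Fintype.ofFinite Nd
  refine (Set.finite_range (rl M)).subset ?_
  rintro p ⟨i, -, h⟩
  exact ⟨i, h⟩

theorem vars_tc {V : Type} (x : Cst) : (tc x : Tm (Fs Nd) (arr Nd K) V).vars = ∅ := by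
  apply Set.eq_empty_of_forall_notMem
  rintro v ⟨i, -⟩
  exact i.elim0

theorem isRule : ∀ p ∈ RS M, IsRule p := by
  rintro p ⟨i, -, rfl⟩
  have hX : (Nat.pair 2 1 : ℕ) ∈ (tS Xv : Tm (Fs Nd) (arr Nd K) ℕ).vars := ⟨(0 : Fin 1), rfl⟩
  constructor
  · intro v h
    cases i <;> cases h
  · cases i with
    | sB => rintro v ⟨i, hv⟩; obtain rfl := hv; exact hX
    | Bs => rintro v ⟨i, hv⟩; obtain rfl := hv; exact ⟨(0 : Fin 1), hX⟩
    | pr o =>
      cases o with
      | some d => simp only [rl, pt, vars_tc]; exact Set.empty_subset _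
      | none =>
        rintro v ⟨i, hv⟩
        obtain rfl := hv
        refine ⟨(Fin.castSucc (0 : Fin (K + 1)) : Fin (K + 2)), ?_⟩
        have : (Fin.snoc (n := K + 1) (α := fun _ => Tm (Fs Nd) (arr Nd K) ℕ)
            (update Xs 0 (pt none)) Zv (Fin.castSucc 0)) = pt none := by
          rw [Fin.snoc_castSucc, update_self]
        change _ ∈ Tm.vars (Fin.snoc (n := K + 1) (α := fun _ => Tm (Fs Nd) (arr Nd K) ℕ)
            (update Xs 0 (pt none)) Zv (Fin.castSucc 0))
        rw [this]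
        exact hX
    | _ => simp only [rl, vars_tc]; exact Set.empty_subset _

/-! ### instances -/

theorem ev_upd (σ : ℕ → G Nd K) (u : Fin (K + 1) → Tm (Fs Nd) (arr Nd K) ℕ) (j : Fin (K + 1))
    (t : Tm (Fs Nd) (arr Nd K) ℕ) :
    (fun i => ev σ (update u j t i)) = update (fun i => ev σ (u i)) j (ev σ t) := by
  funext i
  by_cases h : i = j
  · subst h; rw [update_self, update_self]
  · rw [update_of_ne h, update_of_ne h]

theorem ev_tsh (σ : ℕ → G Nd K) (b : Bool) (t : Tm (Fs Nd) (arr Nd K) ℕ) :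
    ev σ (tsh b t) = sh b (ev σ t) := by cases b <;> rfl

theorem numHd_bld (q : Fs Nd) (g : Fin (arr Nd K q) → G Nd K) : numHd (bld q g) = numF q := by
  cases q with
  | c x => cases x <;> rfl
  | _ => rfl

theorem ev_pt (σ : ℕ → G Nd K) (o : Option Bool) : numHd (ev σ (pt o)) = true ∧
    isZ (ev σ (pt o)) = o.isSome := by
  cases o <;> exact ⟨rfl, rfl⟩

theorem rl_rt (i : Idx Nd K) (hi : ok M i) (σ : ℕ → G Nd K) :
    ∃ l, Rt M l (ev σ (rl M i).1) (ev σ (rl M i).2) := by
  cases i with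
  | cut0 b => exact ⟨_, .cut0 b⟩
  | cut1 => exact ⟨_, .cut1 _⟩
  | m0 => exact ⟨_, .m0⟩
  | m1 => exact ⟨_, .m1⟩
  | cE => exact ⟨_, .cE⟩
  | cO i => exact ⟨_, .cO i⟩
  | c0 i => exact ⟨_, .c0 i⟩
  | c1 i => exact ⟨_, .c1 i⟩
  | cM i => exact ⟨_, .cM i⟩
  | fin a b j =>
    refine ⟨.fin, ?_⟩
    simp only [rl, ev_tN, ev_upd, ev_tc]
    exact .fin a _ b _ _ j (ev σ Xv) (by rw [update_self, ev_tsh]) (by rw [update_self, ev_tsh])
  | gs q =>
    refine ⟨.garb, .garb _ (.s _ ?_)⟩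
    change numHd (bld q _) = false
    rw [numHd_bld]; exact hi
  | greg a j q =>
    refine ⟨.garb, ?_⟩
    simp only [rl, ev_tN, ev_upd, ev_tc]
    refine .garb _ (.reg _ _ _ j ?_)
    rw [update_self]
    change numHd (bld q _) = false
    rw [numHd_bld]; exact hi
  | ghl a q =>
    refine ⟨.garb, ?_⟩
    simp only [rl, ev_tN, ev_tc]
    refine .garb _ (.hl _ _ _ hi.1 ?_)
    intro h
    apply hi.2
    cases q with
    | c x => cases h; rfl
    | _ => cases h
  | gtl a q =>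
    refine ⟨.garb, ?_⟩
    simp only [rl, ev_tN, ev_tc]
    refine .garb _ (.tl _ _ _ hi.1 ?_)
    intro b v z' h
    cases q with
    | nd b' => exact hi.2 b' rfl
    | _ => cases h
  | gnx a o b =>
    refine ⟨.garb, ?_⟩
    simp only [rl, ev_tN, ev_upd, ev_tc]
    refine .garb _ (.nx _ _ _ _ _ hi.1 ?_ ?_)
    · rw [update_self]; exact (ev_pt σ o).1
    · rw [update_self, (ev_pt σ o).2]; exact hi.2
  | ginc a b d =>
    refine ⟨.garb, ?_⟩
    simp only [rl, ev_tN, ev_upd, ev_tc]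
    exact .garb _ (.inc _ _ _ _ _ d hi (by rw [update_self]))
  | gdec a b d =>
    refine ⟨.garb, ?_⟩
    simp only [rl, ev_tN, ev_upd, ev_tc]
    exact .garb _ (.dec _ _ _ _ _ d _ hi (by rw [update_self]) (by rw [update_self]; rfl))
  | gst j =>
    refine ⟨.garb, ?_⟩
    simp only [rl, ev_tN, ev_upd, ev_tc]
    exact .garb _ (.st _ _ j _ hi (by rw [update_self]; rfl))
  | sB => exact ⟨_, .sB _⟩
  | Bs => exact ⟨_, .Bs _⟩
  | Bz b => exact ⟨_, .Bz b⟩
  | pr o =>
    refine ⟨.oth, ?_⟩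
    simp only [rl, ev_tN, ev_upd]
    have := Rt.pr (M := M) (update (fun i => ev σ (Xs i)) 0 (ev σ (pt o))) (ev σ Zv)
      (by rw [update_self]; exact (ev_pt σ o).1)
    rwa [update_self] at this
  | ns => exact ⟨_, .ns _⟩
  | nz b => exact ⟨_, .nz b⟩
  | zz b => exact ⟨_, .zz b⟩
  | bb => exact ⟨_, .bb _⟩
  | col q =>
    refine ⟨.oth, .col _ ?_⟩
    simp only [rl, tQ, ev]
    cases q with
    | c x => cases x with
      | ch i => exact absurd rfl (hi.1 i)
      | _ => trivial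
    | s => trivial
    | B => trivial
    | nd a => exact fun h => hi.2 (by rw [h])
  | cst =>
    refine ⟨.oth, ?_⟩
    simp only [rl, ev_tN, ev_tc]
    exact .cst _ _
  | chn i => exact ⟨_, .chn i⟩

/-- assignments -/
def sg (f0 f1 f2 f3 : ℕ → G Nd K) : ℕ → G Nd K := fun v =>
  match v.unpair.1 with
  | 0 => f0 v.unpair.2
  | 1 => f1 v.unpair.2
  | 2 => f2 v.unpair.2
  | _ => f3 v.unpair.2

@[simp] theorem sg0 (f0 f1 f2 f3 : ℕ → G Nd K) (i : ℕ) : sg f0 f1 f2 f3 (Nat.pair 0 i) = f0 i := by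
  simp [sg]
@[simp] theorem sg1 (f0 f1 f2 f3 : ℕ → G Nd K) (i : ℕ) : sg f0 f1 f2 f3 (Nat.pair 1 i) = f1 i := by
  simp [sg]
@[simp] theorem sg2 (f0 f1 f2 f3 : ℕ → G Nd K) (i : ℕ) : sg f0 f1 f2 f3 (Nat.pair 2 i) = f2 i := by
  simp [sg]
@[simp] theorem sg3 (f0 f1 f2 f3 : ℕ → G Nd K) (i : ℕ) : sg f0 f1 f2 f3 (Nat.pair 3 i) = f3 i := by
  simp [sg]

/-- registers as a sequence -/
def ex (u : Fin (K + 1) → G Nd K) : ℕ → G Nd K := fun i =>
  if h : i < K + 1 then u ⟨i, h⟩ else .c .nil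

theorem ex_val (u : Fin (K + 1) → G Nd K) (j : Fin (K + 1)) : ex u j = u j := by
  simp only [ex]
  rw [dif_pos j.2]

/-- two values -/
def tw (z x : G Nd K) : ℕ → G Nd K := fun i => if i = 0 then z else x

/-- the symbol at the root -/
def hd : G Nd K → Fs Nd
  | .c x => .c x
  | .s _ => .s
  | .B _ => .B
  | .nd a _ _ => .nd a

/-- the arguments of the symbol at the root -/
def ag : G Nd K → ℕ → G Nd K
  | .c _, _ => .c .nil
  | .s t, _ => t
  | .B t, _ => t
  | .nd _ u z, i => if h : i < K + 1 then u ⟨i, h⟩ else z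

theorem bld_hd (g : G Nd K) : bld (hd g) (fun i => ag g i) = g := by
  cases g with
  | c x => rfl
  | s t => rfl
  | B t => rfl
  | nd a u z =>
    simp only [hd, bld, ag]
    congr 1
    · funext j
      rw [dif_pos (show ((Fin.castSucc j : Fin (K + 2)) : ℕ) < K + 1 from j.2)]
      rfl
    · rw [dif_neg (show ¬ ((Fin.last (K + 1) : Fin (K + 2)) : ℕ) < K + 1 from lt_irrefl _)]

theorem ev_tQ (f0 f1 f2 : ℕ → G Nd K) (g : G Nd K) :
    ev (sg f0 f1 f2 (ag g)) (tQ (hd g)) = g := by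
  simp only [tQ, ev, sg3]
  exact bld_hd g

theorem ev_Xs (u : Fin (K + 1) → G Nd K) (f1 f2 f3 : ℕ → G Nd K) :
    (fun i => ev (sg (ex u) f1 f2 f3) (Xs i)) = u := by
  funext i
  simp [ev, ex_val]

theorem ev_Ys (u : Fin (K + 1) → G Nd K) (f0 f2 f3 : ℕ → G Nd K) :
    (fun i => ev (sg f0 (ex u) f2 f3) (Ys i)) = u := by
  funext i
  simp [ev, ex_val]

theorem ev_Zv (z x : G Nd K) (f0 f1 f3 : ℕ → G Nd K) : ev (sg f0 f1 (tw z x) f3) Zv = z := by
  simp [ev, tw]

theorem ev_Xv (z x : G Nd K) (f0 f1 f3 : ℕ → G Nd K) : ev (sg f0 f1 (tw z x) f3) Xv = x := by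
  simp [ev, tw]

theorem numF_hd (g : G Nd K) : numF (hd g) = numHd g := by
  cases g with
  | c x => cases x <;> rfl
  | _ => rfl

/-- the beginning of a number -/
theorem pt_of (g : G Nd K) (h : numHd g = true) : ∃ (o : Option Bool) (x : G Nd K),
    o.isSome = isZ g ∧ ∀ (z : G Nd K) (f0 f1 f3 : ℕ → G Nd K),
      ev (sg f0 f1 (tw z x) f3) (pt o) = g := by
  cases g with
  | c y =>
    cases y with
    | z d => exact ⟨some d, .c .nil, rfl, fun z f0 f1 f3 => rfl⟩
    | _ => cases h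
  | s t => exact ⟨none, t, rfl, fun z f0 f1 f3 => by simp only [pt, ev_tS, ev_Xv]⟩
  | B t => cases h
  | nd a u z => cases h

theorem rt_rl {l : Lab} {a b : G Nd K} (h : Rt M l a b) :
    ∃ i σ, ok M i ∧ ev σ (rl M i).1 = a ∧ ev σ (rl M i).2 = b := by
  let j0 : ℕ → G Nd K := fun _ => .c .nil
  cases h with
  | cut0 b => exact ⟨.cut0 b, j0, trivial, rfl, rfl⟩
  | cut1 t => exact ⟨.cut1, sg j0 j0 (tw (.c .nil) t) j0, trivial, by
      simp only [rl, ev_tS, ev_Xv], rfl⟩
  | m0 => exact ⟨.m0, j0, trivial, rfl, rfl⟩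
  | m1 => exact ⟨.m1, j0, trivial, rfl, rfl⟩
  | cE => exact ⟨.cE, j0, trivial, rfl, rfl⟩
  | cO i => exact ⟨.cO i, j0, trivial, rfl, rfl⟩
  | c0 i => exact ⟨.c0 i, j0, trivial, rfl, rfl⟩
  | c1 i => exact ⟨.c1 i, j0, trivial, rfl, rfl⟩
  | cM i => exact ⟨.cM i, j0, trivial, rfl, rfl⟩
  | fin a u b v z j X h1 h2 =>
    refine ⟨.fin a b j, sg (ex u) (ex v) (tw z X) j0, trivial, ?_, rfl⟩
    simp only [rl, ev_tN, ev_upd, ev_tsh, ev_Xv, ev_Xs, ev_Ys, ev_Zv]
    rw [← h1, ← h2, update_eq_self, update_eq_self]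
  | garb t h =>
    cases h with
    | s t h =>
      refine ⟨.gs (hd t), sg j0 j0 j0 (ag t), ?_, ?_, rfl⟩
      · change numF (hd t) = false; rw [numF_hd]; exact h
      · simp only [rl, ev_tS, ev_tQ]
    | reg a u z j h =>
      refine ⟨.greg a j (hd (u j)), sg (ex u) j0 (tw z (.c .nil)) (ag (u j)), ?_, ?_, rfl⟩
      · change numF (hd (u j)) = false; rw [numF_hd]; exact h
      · simp only [rl, ev_tN, ev_upd, ev_tQ, ev_Xs, ev_Zv, update_eq_self]
    | hl a u z h1 h2 =>
      refine ⟨.ghl a (hd z), sg (ex u) j0 j0 (ag z), ⟨h1, ?_⟩, ?_, rfl⟩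
      · intro h
        apply h2
        cases z <;> simp_all [hd]
      · simp only [rl, ev_tN, ev_tQ, ev_Xs]
    | tl a u z h1 h2 =>
      refine ⟨.gtl a (hd z), sg (ex u) j0 j0 (ag z), ⟨h1, ?_⟩, ?_, rfl⟩
      · intro b h
        cases z with
        | nd b' v z' => exact h2 b' v z' rfl
        | _ => simp [hd] at h
      · simp only [rl, ev_tN, ev_tQ, ev_Xs]
    | nx a u b v z h1 h2 h3 =>
      obtain ⟨o, x, ho, hx⟩ := pt_of (u (M.q a)) h2
      refine ⟨.gnx a o b, sg (ex u) (ex v) (tw z x) j0, ⟨h1, by rw [ho]; exact h3⟩, ?_, rfl⟩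
      simp only [rl, ev_tN, ev_upd, ev_Xs, ev_Ys, ev_Zv, hx, update_eq_self]
    | inc a u b v z d h1 h2 =>
      refine ⟨.ginc a b d, sg (ex u) (ex v) (tw z (.c .nil)) j0, h1, ?_, rfl⟩
      simp only [rl, ev_tN, ev_upd, ev_Xs, ev_Ys, ev_Zv, ev_tc]
      rw [← h2, update_eq_self]
    | dec a u b v z d t h1 h2 h3 =>
      refine ⟨.gdec a b d, sg (ex u) (ex v) (tw z t) j0, h1, ?_, rfl⟩
      simp only [rl, ev_tN, ev_upd, ev_Xs, ev_Ys, ev_Zv, ev_tc, ev_tS, ev_Xv]
      rw [← h2, ← h3, update_eq_self, update_eq_self]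
    | st u z j t h1 h2 =>
      refine ⟨.gst j, sg (ex u) j0 (tw z t) j0, h1, ?_, rfl⟩
      simp only [rl, ev_tN, ev_upd, ev_Xs, ev_Zv, ev_tS, ev_Xv]
      rw [← h2, update_eq_self]
  | sB t => exact ⟨.sB, sg j0 j0 (tw (.c .nil) t) j0, trivial, by
      simp only [rl, ev_tS, ev_Xv], by simp only [rl, ev_tB, ev_Xv]⟩
  | Bs t => exact ⟨.Bs, sg j0 j0 (tw (.c .nil) t) j0, trivial, by
      simp only [rl, ev_tB, ev_tS, ev_Xv], by simp only [rl, ev_tS, ev_Xv]⟩
  | Bz b => exact ⟨.Bz b, j0, trivial, rfl, rfl⟩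
  | pr u z h =>
    obtain ⟨o, x, ho, hx⟩ := pt_of (u 0) h
    refine ⟨.pr o, sg (ex u) j0 (tw z x) j0, trivial, ?_, ?_⟩
    · simp only [rl, ev_tN, ev_upd, ev_Xs, ev_Zv, hx, update_eq_self]
    · simp only [rl, hx]
  | ns t => exact ⟨.ns, sg j0 j0 (tw (.c .nil) t) j0, trivial, by
      simp only [rl, ev_tS, ev_Xv], rfl⟩
  | nz b => exact ⟨.nz b, j0, trivial, rfl, rfl⟩
  | zz b => exact ⟨.zz b, j0, trivial, rfl, rfl⟩
  | bb t => exact ⟨.bb, sg j0 j0 (tw (.c .nil) t) j0, trivial, by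
      simp only [rl, ev_tB, ev_Xv], rfl⟩
  | col t h =>
    refine ⟨.col (hd a), sg j0 j0 j0 (ag a), ⟨?_, ?_⟩, ?_, rfl⟩
    · intro i hi
      cases a with
      | c x => simp only [hd, Fs.c.injEq] at hi; subst hi; exact h
      | _ => cases hi
    · intro hi
      cases a with
      | nd a u z => simp only [hd, Fs.nd.injEq] at hi; exact h hi
      | _ => cases hi
    · simp only [rl, ev_tQ]
  | cst u z =>
    refine ⟨.cst, sg (ex u) j0 (tw z (.c .nil)) j0, trivial, ?_, rfl⟩
    simp only [rl, ev_tN, ev_Xs, ev_Zv]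
  | chn i => exact ⟨.chn i, j0, trivial, rfl, rfl⟩

/-! ### the isomorphism -/

theorem rew_ss {t t' : Gr (Fs Nd) (arr Nd K)} (h : Rew (RS M) t t') :
    Ss M (toG t) (toG t') := by
  induction h with
  | rule l r h σ =>
    obtain ⟨i, hi, e⟩ := h
    obtain ⟨lb, h⟩ := rl_rt M i hi (fun v => toG (σ v))
    rw [e] at h
    refine ⟨lb, .root _ _ ?_⟩
    rw [toG, ev_subst, ev_subst]
    exact h
  | arg f ts i t _ ih =>
    obtain ⟨l, ih⟩ := ih
    refine ⟨l, ?_⟩
    cases f with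
    | c x => exact i.elim0
    | s =>
      obtain rfl : i = (0 : Fin 1) := Subsingleton.elim (α := Fin 1) _ _
      have e : toG (Tm.app Fs.s (update ts (0 : Fin 1) t)) = .s (toG t) := by
        simp only [toG, ev, bld, update_self]
      rw [e]
      exact .s _ _ ih
    | B =>
      obtain rfl : i = (0 : Fin 1) := Subsingleton.elim (α := Fin 1) _ _
      have e : toG (Tm.app Fs.B (update ts (0 : Fin 1) t)) = .B (toG t) := by
        simp only [toG, ev, bld, update_self]
      rw [e]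
      exact .B _ _ ih
    | nd a =>
      have key : ∀ (m : Fin (K + 2)) (ts : Fin (K + 2) → Gr (Fs Nd) (arr Nd K)),
          St M l (toG (ts m)) (toG t) →
          St M l (.nd a (fun j => toG (ts j.castSucc)) (toG (ts (Fin.last (K + 1)))))
            (.nd a (fun j => toG (update ts m t j.castSucc))
              (toG (update ts m t (Fin.last (K + 1))))) := by
        intro m ts
        refine Fin.lastCases ?_ (fun j => ?_) m
        · intro h
          have e1 : (fun j : Fin (K + 1) => toG (update ts (Fin.last (K + 1)) t j.castSucc)) =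
              fun j => toG (ts j.castSucc) := by
            funext j
            rw [update_of_ne (Fin.castSucc_lt_last j).ne]
          rw [e1, update_self]
          exact .tail _ _ _ _ h
        · intro h
          have e1 : (fun j' : Fin (K + 1) => toG (update ts j.castSucc t j'.castSucc)) =
              update (fun j' => toG (ts j'.castSucc)) j (toG t) := by
            funext j'
            by_cases hj : j' = j
            · subst hj; rw [update_self, update_self]
            · rw [update_of_ne (fun e => hj (Fin.castSucc_injective _ e)), update_of_ne hj]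
          rw [e1, update_of_ne (Fin.castSucc_lt_last j).ne']
          exact .reg _ _ _ _ _ h
      exact key i ts ih

theorem ss_rew {g g' : G Nd K} (h : Ss M g g') : Rew (RS M) (ofG g) (ofG g') := by
  obtain ⟨l, h⟩ := h
  induction h with
  | root a b h =>
    obtain ⟨i, σ, hi, rfl, rfl⟩ := rt_rl M h
    rw [ofG_ev, ofG_ev]
    exact Rew.rule (R := RS M) (rl M i).1 (rl M i).2 ⟨i, hi, rfl⟩ _
  | s t t' _ ih =>
    have := Rew.arg (R := RS M) Fs.s (fun _ => ofG t) (0 : Fin 1) (ofG t') ih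
    have e : (update (fun _ : Fin 1 => ofG t) (0 : Fin 1) (ofG t')) = fun _ => ofG t' := by
      funext i
      obtain rfl : i = (0 : Fin 1) := Subsingleton.elim (α := Fin 1) _ _
      rw [update_self]
    change Rew (RS M) (Tm.app Fs.s fun _ => ofG t) (Tm.app Fs.s fun _ => ofG t')
    convert this using 2
    exact e.symm
  | B t t' _ ih =>
    have := Rew.arg (R := RS M) Fs.B (fun _ => ofG t) (0 : Fin 1) (ofG t') ih
    have e : (update (fun _ : Fin 1 => ofG t) (0 : Fin 1) (ofG t')) = fun _ => ofG t' := by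
      funext i
      obtain rfl : i = (0 : Fin 1) := Subsingleton.elim (α := Fin 1) _ _
      rw [update_self]
    change Rew (RS M) (Tm.app Fs.B fun _ => ofG t) (Tm.app Fs.B fun _ => ofG t')
    convert this using 2
    exact e.symm
  | reg a u z j t' _ ih =>
    have h1 : (Fin.snoc (n := K + 1) (α := fun _ => Gr (Fs Nd) (arr Nd K))
        (fun j => ofG (u j)) (ofG z)) j.castSucc = ofG (u j) := Fin.snoc_castSucc _ _ _
    have := Rew.arg (R := RS M) (Fs.nd a) (Fin.snoc (n := K + 1)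
      (α := fun _ => Gr (Fs Nd) (arr Nd K)) (fun j => ofG (u j)) (ofG z)) j.castSucc (ofG t')
      (by rw [h1]; exact ih)
    have e : (fun i => ofG (update u j t' i)) = update (fun i => ofG (u i)) j (ofG t') := by
      funext i
      by_cases h : i = j
      · subst h; rw [update_self, update_self]
      · rw [update_of_ne h, update_of_ne h]
    simp only [ofG, tN, e]
    rw [Fin.snoc_update]
    exact this
  | tail a u z z' _ ih =>
    have h1 : (Fin.snoc (n := K + 1) (α := fun _ => Gr (Fs Nd) (arr Nd K))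
        (fun j => ofG (u j)) (ofG z)) (Fin.last (K + 1)) = ofG z := Fin.snoc_last _ _
    have := Rew.arg (R := RS M) (Fs.nd a) (Fin.snoc (n := K + 1)
      (α := fun _ => Gr (Fs Nd) (arr Nd K)) (fun j => ofG (u j)) (ofG z)) (Fin.last (K + 1))
      (ofG z') (by rw [h1]; exact ih)
    simp only [ofG, tN]
    have e : update (Fin.snoc (n := K + 1) (α := fun _ => Gr (Fs Nd) (arr Nd K))
        (fun j => ofG (u j)) (ofG z)) (Fin.last (K + 1)) (ofG z') =
        Fin.snoc (n := K + 1) (α := fun _ => Gr (Fs Nd) (arr Nd K)) (fun j => ofG (u j))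
          (ofG z') := Fin.update_snoc_last _ _ _
    rw [← e]
    exact this

theorem rew_iff (t t' : Gr (Fs Nd) (arr Nd K)) : Rew (RS M) t t' ↔ Ss M (toG t) (toG t') :=
  ⟨rew_ss M, fun h => by
    have := ss_rew M h
    rwa [ofG_toG, ofG_toG] at this⟩

/-- the truth of formulas is preserved by isomorphisms -/
theorem holds_iso {T S : Type} {P : T → T → Prop} {Q : S → S → Prop} (f : T → S)
    (hf : Bijective f) (hPQ : ∀ a b, P a b ↔ Q (f a) (f b)) (φ : PF) : ∀ e : ℕ → T,
    φ.holds P e ↔ φ.holds Q (fun i => f (e i)) := by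
  have hup : ∀ (e : ℕ → T) (i : ℕ) (t : T), (fun j => f (update e i t j)) =
      update (fun j => f (e j)) i (f t) := by
    intro e i t
    funext j
    by_cases h : j = i
    · subst h; rw [update_self, update_self]
    · rw [update_of_ne h, update_of_ne h]
  induction φ with
  | eq i j => intro e; exact hf.1.eq_iff.symm
  | rel i j => intro e; exact hPQ _ _
  | and a b iha ihb => intro e; exact and_congr (iha e) (ihb e)
  | or a b iha ihb => intro e; exact or_congr (iha e) (ihb e)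
  | all i a ih =>
    intro e
    simp only [PF.holds]
    constructor
    · intro h s
      obtain ⟨t, rfl⟩ := hf.2 s
      have := (ih _).1 (h t)
      rwa [hup] at this
    · intro h t
      rw [ih, hup]
      exact h _
  | ex i a ih =>
    intro e
    simp only [PF.holds]
    constructor
    · rintro ⟨t, h⟩
      have := (ih _).1 h
      rw [hup] at this
      exact ⟨_, this⟩
    · rintro ⟨s, h⟩
      obtain ⟨t, rfl⟩ := hf.2 s
      exact ⟨t, by rw [ih, hup]; exact h⟩

/-- The positive fragment of the theory of one-step rewriting is undecidable for a fixed rewrite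
system. -/
theorem main : ∃ (F : Type) (_ : Finite F) (ar : F → ℕ) (_ : ∃ c, ar c = 0)
    (R : Set (Tm F ar ℕ × Tm F ar ℕ)), R.Finite ∧ (∀ p ∈ R, IsRule p) ∧
    ¬ ∃ f : ℕ → Bool, Computable f ∧ ∀ φ : PF, φ.fv = ∅ →
      (f φ.code = true ↔ ∀ e : ℕ → Gr F ar, φ.holds (Rew R) e) := by
  obtain ⟨Nd, hNd, K, M, hM⟩ := exists_am
  have := Fintype.ofFinite Nd
  refine ⟨Fs Nd, inferInstance, arr Nd K, ⟨.c .nil, rfl⟩, RS M, rs_finite M, isRule M, ?_⟩
  rintro ⟨f, hf, hf'⟩
  apply hM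
  have hkey : ∀ n, f (Psi n).code = true ↔ ¬ M.Hlt M.st (rini n) := by
    intro n
    rw [hf' _ (fv_Psi n)]
    have hb : Bijective (toG : Gr (Fs Nd) (arr Nd K) → G Nd K) :=
      ⟨fun a b h => by rw [← ofG_toG a, ← ofG_toG b, h], fun g => ⟨ofG g, toG_ofG g⟩⟩
    constructor
    · intro h
      have := h fun _ => ofG (.c .nil)
      rw [holds_iso toG hb (rew_iff M), holds_Psi] at this
      exact this
    · intro h e
      rw [holds_iso toG hb (rew_iff M), holds_Psi]
      exact h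
  have hc : Computable fun n => f (Psi n).code := hf.comp primrec_Psi.to_comp
  refine ComputablePred.computable_iff.2 ⟨fun n => !(f (Psi n).code),
    Primrec.not.to_comp.comp hc, ?_⟩
  funext n
  apply propext
  have := hkey n
  cases h : f (Psi n).code
  · rw [h] at this
    simp only [Bool.false_eq_true, false_iff, not_not] at this
    simp [this, h]
  · rw [h] at this
    simp only [true_iff] at this
    simp [this, h]

end Pool.Agent.X238.Osr
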