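import Pool.Agent.Helper707.Num

set_option autoImplicit false

/-!
# A fixed counter machine
-/

namespace Pool.Agent.X238.Osr

open Function

/-- operations on a register -/
inductive Op : Type
  | keep
  | inc
  | dec

/-- A counter machine with `K + 1` registers: in the state `a` the register `q a` is tested, the
next state is `nx a true` if it is zero and `nx a false` otherwise, and the operation `op a` is
applied to it. -/
structure AM (Nd : Type) (K : ℕ) where
  q : Nd → Fin (K + 1)
  nx : Nd → Bool → Nd
  op : Nd → Op
  hl : Nd → Bool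
  st : Nd
  hst : ∀ a o, nx a o ≠ st

/-- the value of an operation -/
def Op.ap : Op → ℕ → ℕ
  | .keep, n => n
  | .inc, n => n + 1
  | .dec, n => n - 1

variable {Nd : Type} {K : ℕ} (M : AM Nd K)

/-- the next registers -/
def AM.nr (a : Nd) (n : Fin (K + 1) → ℕ) : Fin (K + 1) → ℕ :=
  update n (M.q a) ((M.op a).ap (n (M.q a)))

/-- the next state -/
def AM.ns (a : Nd) (n : Fin (K + 1) → ℕ) : Nd := M.nx a (decide (n (M.q a) = 0))

/-- halting -/
inductive AM.Hlt : Nd → (Fin (K + 1) → ℕ) → Prop
  | stop (a : Nd) (n : Fin (K + 1) → ℕ) : M.hl a = true → AM.Hlt a n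
  | step (a : Nd) (n : Fin (K + 1) → ℕ) : M.hl a = false → AM.Hlt (M.ns a n) (M.nr a n) →
      AM.Hlt a n

/-- the registers at the beginning -/
def rini (x : ℕ) : Fin (K + 1) → ℕ := fun j => if j = 0 then x else 0

open Pool.Agent.Helper707.Flat Pool.Agent.Helper707.Num Pool.Agent.Helper707.Prog in
/-- There is a fixed machine with an undecidable halting problem. -/
theorem exists_am : ∃ (Nd : Type) (_ : Finite Nd) (K : ℕ) (M : AM Nd K),
    ¬ ComputablePred fun x : ℕ => M.Hlt M.st (rini x) := by
  obtain ⟨f, hf, hund⟩ := exists_undecidable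
  obtain ⟨body, hb⟩ := search hf
  set P := code (prog body) 0 with hPdef
  set L := len (prog body) with hL
  obtain ⟨K, hK0⟩ := code_ok (prog body)
  have hP : ∀ i ∈ P, Ok (K + 1) L i := fun i hi => (hK0 0 i hi).mono (by omega) (by omega)
  have hlen : P.length = L := length_code _ _
  let cl : ℕ → Fin (L + 1) := fun t => ⟨min t L, by omega⟩
  let cr : ℕ → Fin (K + 1) := fun r => ⟨min r K, by omega⟩
  have hcl : ∀ t, t ≤ L → ((cl t : Fin (L + 1)) : ℕ) = t := fun t ht => by simp [cl, ht]
  have hcr : ∀ r, r < K + 1 → ((cr r : Fin (K + 1)) : ℕ) = r := fun t ht => by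
    simp only [cr]; omega
  let M : AM (Option (Fin (L + 1))) K :=
    { q := fun a => match a with
        | none => 0
        | some l => match P[(l : ℕ)]? with
          | some (.inc r _) => cr r
          | some (.dec r _ _) => cr r
          | _ => 0
      nx := fun a o => match a with
        | none => some (cl 0)
        | some l => match P[(l : ℕ)]? with
          | some (.inc _ t) => some (cl t)
          | some (.dec _ t t') => if o then some (cl t') else some (cl t)
          | some (.jmp t) => some (cl t)
          | none => some (cl 0)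
      op := fun a => match a with
        | none => .keep
        | some l => match P[(l : ℕ)]? with
          | some (.inc _ _) => .inc
          | some (.dec _ _ _) => .dec
          | _ => .keep
      hl := fun a => match a with
        | none => false
        | some l => decide ((l : ℕ) = L)
      st := none
      hst := by
        intro a o
        cases a with
        | none => simp
        | some l =>
          simp only
          split
          · simp
          · split_ifs <;> simp
          · simp
          · simp }
  refine ⟨Option (Fin (L + 1)), inferInstance, K, M, ?_⟩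
  -- restriction of the registers
  let rs : (ℕ → ℕ) → Fin (K + 1) → ℕ := fun σ j => σ j
  have hrs : ∀ (σ : ℕ → ℕ) (r v : ℕ), r < K + 1 → rs (update σ r v) = update (rs σ) (cr r) v := by
    intro σ r v hr
    funext j
    by_cases h : j = cr r
    · subst h
      simp [rs, hcr r hr]
    · rw [update_of_ne h]
      have : (j : ℕ) ≠ r := fun e => h (Fin.ext (by rw [hcr r hr]; exact e))
      simp [rs, this]
  -- one step
  have hstep : ∀ (l : ℕ) (σ : ℕ → ℕ), l < L →
      M.ns (some (cl l)) (rs σ) = some (cl (step P (l, σ)).1) ∧
      M.nr (some (cl l)) (rs σ) = rs (step P (l, σ)).2 ∧ (step P (l, σ)).1 ≤ L := by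
    intro l σ hl
    have hll : ((cl l : Fin (L + 1)) : ℕ) = l := hcl l (by omega)
    have hg : P[l]? = some (P[l]'(by omega)) := List.getElem?_eq_getElem (by omega)
    cases hi : P[l]'(by omega) with
    | inc r t =>
      rw [hi] at hg
      have hok := hP _ (List.mem_of_getElem? hg)
      simp only [AM.ns, AM.nr, M, hll, hg, step, Op.ap]
      refine ⟨trivial, ?_, hok.2⟩
      rw [hrs σ r _ hok.1]
      congr 2
      simp [rs, hcr r hok.1]
    | dec r t t' =>
      rw [hi] at hg
      have hok := hP _ (List.mem_of_getElem? hg)
      have e : rs σ (cr r) = σ r := by simp [rs, hcr r hok.1]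
      simp only [AM.ns, AM.nr, M, hll, hg, step, Op.ap, e]
      by_cases h0 : σ r = 0
      · simp only [h0, if_true, decide_true]
        refine ⟨trivial, ?_, hok.2.2⟩
        rw [show (0 : ℕ) - 1 = rs σ (cr r) by rw [e, h0], update_eq_self]
      · simp only [h0, if_false, decide_false, Bool.false_eq_true]
        refine ⟨trivial, ?_, hok.2.1⟩
        rw [hrs σ r _ hok.1]
    | jmp t =>
      rw [hi] at hg
      have hok := hP _ (List.mem_of_getElem? hg)
      simp only [AM.ns, AM.nr, M, hll, hg, step, Op.ap]
      exact ⟨trivial, update_eq_self _ _, hok⟩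
  -- halting from a location
  have hhl : ∀ l, l ≤ L → (M.hl (some (cl l)) = true ↔ l = L) := by
    intro l hl
    simp only [M, hcl l hl, decide_eq_true_eq]
  have h1 : ∀ (T l : ℕ) (σ : ℕ → ℕ), l ≤ L → ((step P)^[T] (l, σ)).1 = L →
      M.Hlt (some (cl l)) (rs σ) := by
    intro T
    induction T with
    | zero =>
      intro l σ hl h
      exact .stop _ _ ((hhl l hl).2 h)
    | succ T ih =>
      intro l σ hl h
      by_cases hlL : l = L
      · exact .stop _ _ ((hhl l hl).2 hlL)
      · obtain ⟨e1, e2, e3⟩ := hstep l σ (by omega)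
        refine .step _ _ ?_ ?_
        · rw [← Bool.not_eq_true, hhl l hl]; exact hlL
        · rw [e1, e2]
          rw [iterate_succ_apply] at h
          exact ih _ _ e3 h
  have h2 : ∀ (a : Option (Fin (L + 1))) (n : Fin (K + 1) → ℕ), M.Hlt a n → ∀ (l : ℕ)
      (σ : ℕ → ℕ), l ≤ L → a = some (cl l) → n = rs σ → ∃ T, ((step P)^[T] (l, σ)).1 = L := by
    intro a n h
    induction h with
    | stop a n h =>
      intro l σ hl ha hn
      subst ha
      exact ⟨0, (hhl l hl).1 h⟩
    | step a n h _ ih =>
      intro l σ hl ha hn
      subst ha hn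
      have hlL : l ≠ L := fun e => by
        rw [← hhl l hl] at e
        rw [e] at h
        cases h
      obtain ⟨e1, e2, e3⟩ := hstep l σ (by omega)
      obtain ⟨T, hT⟩ := ih (step P (l, σ)).1 (step P (l, σ)).2 e3 e1 e2
      exact ⟨T + 1, by rw [iterate_succ_apply]; exact hT⟩
  have hini : ∀ x, rs (sx x 0 0) = rini x := by
    intro x
    funext j
    simp only [rs, sx, rini]
    by_cases hj : j = 0
    · subst hj; simp
    · have : (j : ℕ) ≠ 0 := fun e => hj (Fin.ext e)
      simp only [hj, this, if_false]
      split_ifs <;> rfl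
  have hmain : ∀ x, M.Hlt M.st (rini x) ↔ ∃ k, f (k ::ᵥ x ::ᵥ List.Vector.nil) = 0 := by
    intro x
    rw [halting_iff hb]
    have e0 : M.ns none (rini x) = some (cl 0) := rfl
    have e1 : M.nr none (rini x) = rini x := by
      simp only [AM.nr, M, Op.ap]
      exact update_eq_self _ _
    constructor
    · intro h
      change M.Hlt none (rini x) at h
      cases h with
      | stop _ _ h => cases h
      | step _ _ _ h =>
        rw [e0, e1, ← hini] at h
        exact h2 _ _ h 0 _ (by omega) rfl rfl
    · rintro ⟨T, hT⟩
      refine .step _ _ rfl ?_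
      change M.Hlt (M.ns none (rini x)) (M.nr none (rini x))
      rw [e0, e1, ← hini]
      exact h1 T 0 _ (by omega) hT
  intro hc
  apply hund
  have : (fun x : ℕ => M.Hlt M.st (rini x)) =
      fun x : ℕ => ∃ k, f (k ::ᵥ x ::ᵥ List.Vector.nil) = 0 := funext fun x => propext (hmain x)
  rwa [this] at hc

end Pool.Agent.X238.Osr
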