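import Pool.Agent.X238.Osr.Sound

set_option autoImplicit false

/-!
# The equivalence with the halting problem
-/

namespace Pool.Agent.X238.Osr

open Function

variable {Nd : Type} {K : ℕ} {M : AM Nd K}

/-- powers of `s` -/
def pw : ℕ → G Nd K → G Nd K
  | 0, t => t
  | n + 1, t => .s (pw n t)

/-- numbers -/
def num (b : Bool) (n : ℕ) : G Nd K := pw n (.c (.z b))

theorem pw_add (m n : ℕ) (t : G Nd K) : pw (m + n) t = pw m (pw n t) := by
  induction m with
  | zero => simp [pw]
  | succ m ih => rw [Nat.succ_add]; simp only [pw, ih]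

theorem sh_pw (b : Bool) (t : G Nd K) : sh b t = pw b.toNat t := by cases b <;> rfl

theorem lf_num (b : Bool) (n : ℕ) : lf (num b n : G Nd K) = .z b := by
  induction n with
  | zero => rfl
  | succ n ih => exact ih

theorem ht_num (b : Bool) (n : ℕ) : ht (num b n : G Nd K) = n := by
  induction n with
  | zero => rfl
  | succ n ih => exact congrArg (· + 1) ih

theorem un_num (b : Bool) (n : ℕ) : Un (num b n : G Nd K) := by
  induction n with
  | zero => exact .c _
  | succ n ih => exact .s _ ih

theorem numHd_num (b : Bool) (n : ℕ) : numHd (num b n : G Nd K) = true := by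
  cases n <;> rfl

theorem isZ_num (b : Bool) (n : ℕ) : isZ (num b n : G Nd K) = decide (n = 0) := by
  cases n <;> rfl

theorem garb_num (b : Bool) (n : ℕ) (t : G Nd K) : ¬ St M .garb (num b n) t := by
  induction n generalizing t with
  | zero =>
    intro h
    cases h with
    | root _ _ h => cases h with | garb _ h => cases h
  | succ n ih =>
    intro h
    cases h with
    | root _ _ h =>
      cases h with
      | garb _ h =>
        cases h with
        | s _ h => rw [← num, numHd_num] at h; cases h
    | s _ t' h => exact ih _ h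

variable (M) in
/-- terms of computations -/
inductive Vd : Nd → (Fin (K + 1) → ℕ) → Bool → G Nd K → Prop
  | stop (a : Nd) (n : Fin (K + 1) → ℕ) (b : Bool) : M.hl a = true →
      Vd a n b (.nd a (fun j => num b (n j)) (.c .nil))
  | step (a : Nd) (n : Fin (K + 1) → ℕ) (b : Bool) (t : G Nd K) : M.hl a = false →
      Vd (M.ns a n) (M.nr a n) (!b) t → Vd a n b (.nd a (fun j => num b (n j)) t)

theorem exists_vd {a : Nd} {n : Fin (K + 1) → ℕ} (h : M.Hlt a n) : ∀ b, ∃ t, Vd M a n b t := by
  induction h with
  | stop a n h => intro b; exact ⟨_, .stop a n b h⟩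
  | step a n h _ ih =>
    intro b
    obtain ⟨t, ht⟩ := ih (!b)
    exact ⟨_, .step a n b t h ht⟩

theorem Vd.nd {a : Nd} {n : Fin (K + 1) → ℕ} {b : Bool} {t : G Nd K} (h : Vd M a n b t) :
    ∃ z, t = .nd a (fun j => num b (n j)) z := by
  cases h with
  | stop => exact ⟨_, rfl⟩
  | step => exact ⟨_, rfl⟩

theorem Vd.ql {a : Nd} {n : Fin (K + 1) → ℕ} {b : Bool} {t : G Nd K} (h : Vd M a n b t) :
    Ql t := by
  induction h with
  | stop a n b h => exact .nd _ _ _ (fun j => un_num _ _) (.un _ (.c _))
  | step a n b t h _ ih => exact .nd _ _ _ (fun j => un_num _ _) ih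

theorem Vd.cnt {a : Nd} {n : Fin (K + 1) → ℕ} {b : Bool} {t : G Nd K} (h : Vd M a n b t)
    (T : Ty) : cnt T t = 0 := by
  have hn : ∀ (b : Bool) (k : ℕ), Osr.cnt T (num b k : G Nd K) = 0 := by
    intro b k
    rw [cnt_un (un_num b k), lf_num]
    cases T <;> rfl
  induction h with
  | stop a n b h =>
    simp only [cnt_nd, hn, Finset.sum_const_zero, cnt_c]
    cases T <;> rfl
  | step a n b t h _ ih => simp only [cnt_nd, hn, Finset.sum_const_zero, ih]

theorem nr_rel (a : Nd) (n : Fin (K + 1) → ℕ) (j : Fin (K + 1))
    (h : (M.al a j).toNat ≤ n j) : n j + (M.be a j).toNat = M.nr a n j + (M.al a j).toNat := by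
  unfold AM.al AM.be AM.nr at *
  by_cases hj : j = M.q a
  · subst hj
    rw [update_self]
    cases hop : M.op a <;> simp [hop, Op.ap] at h ⊢
    omega
  · rw [update_of_ne hj]
    cases hop : M.op a <;> simp [hj]

theorem Vd.p0 {a : Nd} {n : Fin (K + 1) → ℕ} {b : Bool} {t : G Nd K} (h : Vd M a n b t) :
    P0 M t := by
  induction h with
  | stop a n b h =>
    intro j p a' x1 x2 hp
    cases p with
    | zero => simp [pr] at hp
    | succ p => cases p <;> simp [pr] at hp
  | step a n b t h ht ih =>
    intro j p a' x1 x2 hp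
    cases p with
    | zero =>
      obtain ⟨z, rfl⟩ := ht.nd
      simp only [pr, Option.some.injEq, Prod.mk.injEq] at hp
      obtain ⟨rfl, rfl, rfl⟩ := hp
      exact ⟨b, n j, M.nr a n j, nr_rel a n j, ⟨lf_num _ _, ht_num _ _⟩, lf_num _ _, ht_num _ _⟩
    | succ p => exact ih j p a' x1 x2 hp

theorem Vd.garb {a : Nd} {n : Fin (K + 1) → ℕ} {b : Bool} {t : G Nd K} (h : Vd M a n b t) :
    (a = M.st → ∀ j, j ≠ 0 → n j = 0) → ∀ t', ¬ St M .garb t t' := by
  induction h with
  | stop a n b h =>
    intro hs t' hg
    cases hg with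
    | root _ _ hg =>
      cases hg with
      | garb _ hg =>
        cases hg with
        | reg _ _ _ j h => rw [numHd_num] at h; cases h
        | hl _ _ _ _ h => exact h rfl
        | tl _ _ _ h' _ => rw [h] at h'; cases h'
        | st _ _ j t hj h =>
          have := hs rfl j hj
          simp only [this] at h
          cases h
    | reg _ _ _ j t' hg => exact garb_num _ _ _ hg
    | tail _ _ _ z' hg =>
      cases hg with
      | root _ _ hg => cases hg with | garb _ hg => cases hg
  | step a n b t h ht ih =>
    intro hs t' hg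
    obtain ⟨z, hz⟩ := ht.nd
    cases hg with
    | root _ _ hg =>
      cases hg with
      | garb _ hg =>
        cases hg with
        | reg _ _ _ j h => rw [numHd_num] at h; cases h
        | hl _ _ _ h' _ => rw [h] at h'; cases h'
        | tl _ _ _ _ h' => exact h' _ _ _ hz
        | nx _ _ b' v z' _ _ h' =>
          cases hz
          rw [isZ_num] at h'
          exact h' rfl
        | inc _ _ b' v z' d h1 h2 =>
          cases hz
          simp only [AM.nr, update_self, h1, Op.ap] at h2
          cases h2
        | dec _ _ b' v z' d t h1 h2 h3 =>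
          cases hz
          have : n (M.q a) = 0 := by
            by_contra hne
            obtain ⟨k, hk⟩ := Nat.exists_eq_succ_of_ne_zero hne
            have h2' : num b (n (M.q a)) = (.c (.z d) : G Nd K) := h2
            rw [hk] at h2'
            cases h2'
          simp only [AM.nr, update_self, h1, Op.ap, this] at h3
          cases h3
        | st _ _ j t hj h =>
          have := hs rfl j hj
          simp only [this] at h
          cases h
    | reg _ _ _ j t' hg => exact garb_num _ _ _ hg
    | tail _ _ _ z' hg => exact ih (fun e => absurd e (M.hst _ _)) _ hg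

/-! ### the value of the input -/

variable (M) in
/-- the number is not `n` -/
def NE : ℕ → G Nd K → Prop
  | 0, y => ∃ w, Ss M y w ∧ Ss M w (.c (.ch 3))
  | n + 1, y => Ss M y (.c (.ch 0)) ∨ ∃ w, Ss M y w ∧ Ss M w (.c (.ch 3)) ∧
      ∃ t, Ss M w t ∧ Ss M t (.c (.ch 1)) ∧ NE n t

theorem to_ch3 {w : G Nd K} (h : Ss M w (.c (.ch 3))) : (∃ t, w = .B t) ∨ w = .c (.ch 4) := by
  obtain ⟨l, h⟩ := h
  generalize h2 : (G.c (.ch 3) : G Nd K) = r at h
  cases h with
  | root _ _ h =>
    cases h with
    | bb t => exact Or.inl ⟨t, rfl⟩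
    | chn i =>
      right
      have : i.castSucc = 3 := by injection h2 with h2; injection h2 with h2; exact h2.symm
      have : i = 3 := Fin.castSucc_injective _ this
      subst this; rfl
    | pr u z h => rw [← h2] at h; cases h
    | _ => simp at h2
  | _ => cases h2

theorem to_ch1 {w : G Nd K} (h : Ss M w (.c (.ch 1))) : numHd w = true ∨ w = .c (.ch 2) := by
  obtain ⟨l, h⟩ := h
  generalize h2 : (G.c (.ch 1) : G Nd K) = r at h
  cases h with
  | root _ _ h =>
    cases h with
    | ns t => exact Or.inl rfl
    | nz b => exact Or.inl rfl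
    | chn i =>
      right
      have : i.castSucc = 1 := by injection h2 with h2; injection h2 with h2; exact h2.symm
      have : i = 1 := Fin.castSucc_injective _ this
      subst this; rfl
    | pr u z h => rw [← h2] at h; cases h
    | _ => simp at h2
  | _ => cases h2

theorem to_ch0 {w : G Nd K} (h : Ss M w (.c (.ch 0))) : isZ w = true ∨ w = .c (.ch 1) := by
  obtain ⟨l, h⟩ := h
  generalize h2 : (G.c (.ch 0) : G Nd K) = r at h
  cases h with
  | root _ _ h =>
    cases h with
    | zz b => exact Or.inl rfl
    | chn i =>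
      right
      have : i.castSucc = 0 := by injection h2 with h2; injection h2 with h2; exact h2.symm
      have : i = 0 := Fin.castSucc_injective _ this
      subst this; rfl
    | pr u z h => rw [← h2] at h; cases h
    | _ => simp at h2
  | _ => cases h2

theorem num_B {b : Bool} {k : ℕ} {t : G Nd K} {l : Lab} (h : St M l (num b k) (.B t)) :
    ∃ k', k = k' + 1 ∧ t = num b k' := by
  generalize h2 : (num b k : G Nd K) = w at h
  cases h with
  | root _ _ h =>
    generalize h3 : G.B t = w' at h
    cases h with
    | sB t' =>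
      cases h3
      cases k with
      | zero => cases h2
      | succ k => cases h2; exact ⟨k, rfl, rfl⟩
    | pr u z h => rw [← h3] at h; cases h
    | _ => cases h3
  | B t t' h => cases k <;> cases h2

theorem num_ch {b : Bool} {k : ℕ} {l : Lab} (h : St M l (num b k : G Nd K) (.c (.ch 4))) :
    False := by
  generalize h2 : (num b k : G Nd K) = w at h
  generalize h3 : (G.c (.ch 4) : G Nd K) = w' at h
  cases h with
  | root _ _ h =>
    cases h with
    | chn i => cases k <;> cases h2
    | pr u z h => cases k <;> cases h2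
    | _ => simp at h3
  | _ => cases h3

theorem ne_num (n : ℕ) : ∀ (b : Bool) (k : ℕ), NE M n (num b k) ↔ k ≠ n := by
  have key : ∀ (b : Bool) (k : ℕ) (w : G Nd K), Ss M (num b k) w → Ss M w (.c (.ch 3)) →
      ∃ k', k = k' + 1 ∧ w = .B (num b k') := by
    rintro b k w ⟨l, h1⟩ h2
    rcases to_ch3 h2 with ⟨t, rfl⟩ | rfl
    · obtain ⟨k', h3, rfl⟩ := num_B h1
      exact ⟨k', h3, rfl⟩
    · exact (num_ch h1).elim
  induction n with
  | zero =>
    intro b k
    constructor
    · rintro ⟨w, h1, h2⟩
      obtain ⟨k', rfl, -⟩ := key b k w h1 h2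
      omega
    · intro h
      obtain ⟨k', rfl⟩ := Nat.exists_eq_succ_of_ne_zero h
      exact ⟨.B (num b k'), ⟨_, .root _ _ (.sB _)⟩, ⟨_, .root _ _ (.bb _)⟩⟩
  | succ n ih =>
    intro b k
    constructor
    · rintro (h | ⟨w, h1, h2, t, h3, h4, h5⟩)
      · rcases to_ch0 h with h | h
        · rw [isZ_num] at h
          simp at h
          omega
        · cases k <;> cases h
      · obtain ⟨k', rfl, rfl⟩ := key b k w h1 h2
        have ht : t = num b k' := by
          obtain ⟨l, h3⟩ := h3
          have h6 := to_ch1 h4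
          generalize h7 : (num b k' : G Nd K) = y at h3
          cases h3 with
          | root _ _ h3 =>
            cases h3 with
            | Bs t => rfl
            | Bz b => rfl
            | bb t => rcases h6 with h6 | h6 <;> simp [numHd] at h6
            | col t h => rcases h6 with h6 | h6 <;> simp [numHd] at h6
            | garb t h => cases h
          | B t t' h => rcases h6 with h6 | h6 <;> simp [numHd] at h6
        subst ht
        have := (ih b k').1 h5
        omega
    · intro h
      cases k with
      | zero => exact Or.inl ⟨_, .root _ _ (.zz _)⟩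
      | succ k =>
        refine Or.inr ⟨.B (num b k), ⟨_, .root _ _ (.sB _)⟩, ⟨_, .root _ _ (.bb _)⟩, num b k,
          ?_, ?_, (ih b k).2 (by omega)⟩
        · cases k with
          | zero => exact ⟨_, .root _ _ (.Bz _)⟩
          | succ k => exact ⟨_, .root _ _ (.Bs _)⟩
        · cases k with
          | zero => exact ⟨_, .root _ _ (.nz _)⟩
          | succ k => exact ⟨_, .root _ _ (.ns _)⟩

/-! ### completeness -/

theorem mono_pw (k : ℕ) : Mono M (pw k : G Nd K → G Nd K) := by
  induction k with
  | zero => exact mono_id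
  | succ k ih => exact fun l t t' h => .s _ _ (ih l t t' h)

theorem err_mono {C : G Nd K → G Nd K} (hC : Mono M C) {x : G Nd K} (h : Err M x) :
    Err M (C x) := by
  have hs : ∀ {t t' : G Nd K}, Ss M t t' → Ss M (C t) (C t') := fun ⟨l, h⟩ => ⟨l, hC _ _ _ h⟩
  have hc : ∀ {n : ℕ} {t : G Nd K}, Cl M n t → Cl M n (C t) := fun h => mono_wk hC _ _ _ h
  obtain ⟨y1, s1, y2, s2, c26, c27, y3, s3, c38, c37, y3', s3', c38', c36', y4, s4, s4', y5,
    s5, s6⟩ := h
  exact ⟨C y1, hs s1, C y2, hs s2, hc c26, hc c27, C y3, hs s3, hc c38, hc c37, C y3', hs s3',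
    hc c38', hc c36', C y4, hs s4, hs s4', C y5, hs s5, hs s6⟩

theorem err_of {D : G Nd K → G Nd K → G Nd K} (h1 : ∀ β, Mono M fun α => D α β)
    (h2 : ∀ α, Mono M (D α)) (w : G Nd K) (d : Bool)
    (hF : Ss M (D (.c (.mm 0)) (.c (.mm 0))) (.c .E)) : Err M (D (.c (.z d)) (.s w)) := by
  refine ⟨D (.c (.k0 0)) (.s w), ⟨_, h1 _ _ _ _ (.root _ _ (.cut0 d))⟩,
    D (.c (.k0 0)) (.c (.k1 0)), ⟨_, h2 _ _ _ _ (.root _ _ (.cut1 w))⟩,
    mono_wk (h1 _) _ _ _ k0_cl, mono_wk (h2 _) _ _ _ k1_cl,
    D (.c (.mm 0)) (.c (.k1 0)), ⟨_, h1 _ _ _ _ (.root _ _ .m0)⟩,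
    mono_wk (h1 _) _ _ _ mm_cl, mono_wk (h2 _) _ _ _ k1_cl,
    D (.c (.k0 0)) (.c (.mm 0)), ⟨_, h2 _ _ _ _ (.root _ _ .m1)⟩,
    mono_wk (h2 _) _ _ _ mm_cl, mono_wk (h1 _) _ _ _ k0_cl,
    D (.c (.mm 0)) (.c (.mm 0)), ⟨_, h2 _ _ _ _ (.root _ _ .m1)⟩,
    ⟨_, h1 _ _ _ _ (.root _ _ .m0)⟩, .c .E, hF, ⟨_, .root _ _ .cE⟩⟩

theorem mismatch {a b : Nd} {u v : Fin (K + 1) → G Nd K} {z : G Nd K} {j : Fin (K + 1)}
    {d d' : Bool} {k k' : ℕ} (hu : u j = num d k) (hv : v j = num d' k')
    (hk : (M.al a j).toNat ≤ k) (hk' : (M.be a j).toNat ≤ k')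
    (hne : k + (M.be a j).toNat ≠ k' + (M.al a j).toNat) : Err M (.nd a u (.nd b v z)) := by
  set α := (M.al a j).toNat with hα
  set β := (M.be a j).toNat with hβ
  -- the context
  let D : ℕ → ℕ → G Nd K → G Nd K → G Nd K := fun p q x y =>
    .nd a (update u j (pw p x)) (.nd b (update v j (pw q y)) z)
  have h1 : ∀ p q y, Mono M fun x => D p q x y := fun p q y =>
    mono_comp (mono_reg a u (.nd b (update v j (pw q y)) z) j) (mono_pw p)
  have h2 : ∀ p q x, Mono M (D p q x) := fun p q x =>
    mono_comp (mono_tail a (update u j (pw p x))) (mono_comp (mono_reg b v z j) (mono_pw q))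
  have hF : ∀ i, Ss M (D (α + i) (β + i) (.c (.mm 0)) (.c (.mm 0))) (.c .E) := by
    intro i
    refine ⟨_, .root _ _ (.fin a _ b _ z j (pw i (.c (.mm 0))) ?_ ?_)⟩
    · rw [update_self, sh_pw, ← hα, pw_add]
    · rw [update_self, sh_pw, ← hβ, pw_add]
  rcases Nat.lt_or_gt_of_ne hne with hlt | hgt
  · -- the second number is too large
    obtain ⟨i, rfl⟩ : ∃ i, k = α + i := ⟨k - α, by omega⟩
    obtain ⟨r, rfl⟩ : ∃ r, k' = β + i + (1 + r) := ⟨k' - β - i - 1, by omega⟩
    have e := err_of (M := M) (D := D (α + i) (β + i)) (h1 _ _) (h2 _ _)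
      (pw r (.c (.z d'))) d (hF i)
    have ex : D (α + i) (β + i) (.c (.z d)) (.s (pw r (.c (.z d')))) = .nd a u (.nd b v z) := by
      simp only [D]
      have e1 : pw (α + i) (.c (.z d)) = u j := hu.symm
      have e2 : pw (β + i) (.s (pw r (.c (.z d')))) = v j := by
        rw [hv, num, pw_add (β + i), pw_add 1]
        rfl
      rw [e1, e2, update_eq_self, update_eq_self]
    rwa [ex] at e
  · obtain ⟨i, rfl⟩ : ∃ i, k' = β + i := ⟨k' - β, by omega⟩
    obtain ⟨r, rfl⟩ : ∃ r, k = α + i + (1 + r) := ⟨k - α - i - 1, by omega⟩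
    have e := err_of (M := M) (D := fun y x => D (α + i) (β + i) x y) (fun x => h2 _ _ x)
      (fun y => h1 _ _ y) (pw r (.c (.z d))) d' (hF i)
    have ex : D (α + i) (β + i) (.s (pw r (.c (.z d)))) (.c (.z d')) = .nd a u (.nd b v z) := by
      simp only [D]
      have e1 : pw (β + i) (.c (.z d')) = v j := hv.symm
      have e2 : pw (α + i) (.s (pw r (.c (.z d)))) = u j := by
        rw [hu, num, pw_add (α + i), pw_add 1]
        rfl
      rw [e1, e2, update_eq_self, update_eq_self]
    simp only [ex] at e
    exact e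

theorem garb_cl {x t : G Nd K} {l : Lab} (h : St M l x t) (hl : l = .garb) : Cl M 5 t := by
  induction h with
  | root a b h => subst hl; cases h; exact om_cl
  | s t t' _ ih => exact mono_wk (C := fun t => .s t) (fun l t t' h => .s t t' h) _ _ _ ih
  | B t t' _ ih => exact mono_wk (C := fun t => .B t) (fun l t t' h => .B t t' h) _ _ _ ih
  | reg a u z j t' _ ih => exact mono_wk (mono_reg a u z j) _ _ _ ih
  | tail a u z z' _ ih => exact mono_wk (mono_tail a u) _ _ _ ih

theorem num_of (u : G Nd K) (h1 : numHd u = true) (h2 : ∀ t, ¬ St M .garb u t) :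
    ∃ b k, u = num b k := by
  induction u with
  | c x =>
    cases x with
    | z b => exact ⟨b, 0, rfl⟩
    | _ => cases h1
  | s t ih =>
    have h3 : numHd t = true := by
      by_contra h
      exact h2 _ (.root _ _ (.garb _ (.s _ (by simpa using h))))
    obtain ⟨b, k, rfl⟩ := ih h3 fun t' h => h2 _ (.s _ _ h)
    exact ⟨b, k + 1, rfl⟩
  | B t _ => cases h1
  | nd a u z _ _ => cases h1

theorem hlt_of (x : G Nd K) : ∀ (a : Nd) (u : Fin (K + 1) → G Nd K) (z : G Nd K),
    x = .nd a u z → (∀ t, ¬ St M .garb x t) → ¬ Err M x → M.Hlt a (fun j => ht (u j)) := by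
  induction x with
  | nd a u z _ ih =>
    intro a' u' z' e hg he
    obtain ⟨rfl, rfl, rfl⟩ := G.nd.inj e
    have hnum : ∀ j, ∃ b k, u j = num b k := fun j => num_of (M := M) (u j)
      (by
        by_contra h
        exact hg _ (.root _ _ (.garb _ (.reg _ _ _ j (by simpa using h)))))
      (fun t h => hg _ (.reg _ _ _ _ _ h))
    cases hh : M.hl a with
    | true => exact .stop _ _ hh
    | false =>
      have hz : ∃ b v z', z = .nd b v z' := by
        by_contra h
        push Not at h
        exact hg _ (.root _ _ (.garb _ (.tl _ _ _ hh h)))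
      obtain ⟨b, v, z', rfl⟩ := hz
      have hgz : ∀ t, ¬ St M .garb (.nd b v z') t := fun t h => hg _ (.tail _ _ _ _ h)
      have hv : ∀ j, ∃ b k, v j = num b k := fun j => num_of (M := M) (v j)
        (by
          by_contra h
          exact hgz _ (.root _ _ (.garb _ (.reg _ _ _ j (by simpa using h)))))
        (fun t h => hgz _ (.reg _ _ _ _ _ h))
      have h1 := ih b v z' rfl hgz (fun h => he (err_mono (mono_tail a u) h))
      refine .step _ _ hh ?_
      have e1 : M.ns a (fun j => ht (u j)) = b := by
        obtain ⟨d, k, hk⟩ := hnum (M.q a)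
        by_contra h
        refine hg _ (.root _ _ (.garb _ (.nx a u b v z' hh (by rw [hk, numHd_num]) ?_)))
        intro h2
        apply h
        rw [h2, hk, isZ_num]
        simp only [AM.ns, hk, ht_num]
      have e2 : M.nr a (fun j => ht (u j)) = fun j => ht (v j) := by
        funext j
        obtain ⟨d, k, hk⟩ := hnum j
        obtain ⟨d', k', hk'⟩ := hv j
        have hmis : (M.al a j).toNat ≤ k → (M.be a j).toNat ≤ k' →
            k + (M.be a j).toNat = k' + (M.al a j).toNat := by
          intro h3 h4
          by_contra h5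
          exact he (mismatch hk hk' h3 h4 h5)
        rw [hk', ht_num]
        by_cases hj : j = M.q a
        · subst hj
          simp only [AM.nr, update_self, hk, ht_num]
          simp only [AM.al, AM.be] at hmis
          cases hop : M.op a with
          | keep => simp [hop] at hmis; simp [Op.ap, hmis]
          | inc =>
            simp [hop] at hmis
            have : 1 ≤ k' := by
              by_contra h6
              have h7 : k' = 0 := by omega
              rw [h7] at hk'
              exact hg _ (.root _ _ (.garb _ (.inc a u b v z' d' hop hk')))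
            simp only [Op.ap]
            exact hmis this
          | dec =>
            simp [hop] at hmis
            simp only [Op.ap]
            rcases Nat.eq_zero_or_pos k with h6 | h6
            · rw [h6] at hk
              rcases Nat.eq_zero_or_pos k' with h7 | h7
              · omega
              · exfalso
                obtain ⟨r, rfl⟩ : ∃ r, k' = r + 1 := ⟨k' - 1, by omega⟩
                exact hg _ (.root _ _ (.garb _ (.dec a u b v z' d (num d' r) hop hk hk')))
            · have := hmis h6
              omega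
        · simp only [AM.nr, update_of_ne hj, hk, ht_num]
          have ha : M.al a j = false := by unfold AM.al; cases M.op a <;> simp [hj]
          have hb : M.be a j = false := by unfold AM.be; cases M.op a <;> simp [hj]
          rw [ha, hb] at hmis
          simpa using hmis
      rw [e1, e2]
      exact h1
  | _ => intro a u z e; cases e

variable (M) in
/-- the property tested by the sentence -/
def Th (n : ℕ) (x : G Nd K) : Prop :=
  (∃ i : Fin 6, x = .c (.ch i.castSucc)) ∨ Ss M x (.c (.ch 5)) ∨ Grb M x ∨
    (∃ y, Ss M x y ∧ Ss M y (.c (.ch 1)) ∧ NE M n y) ∨ Err M x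

theorem th_iff (n : ℕ) : (∀ x : G Nd K, Th M n x) ↔ ¬ M.Hlt M.st (rini n) := by
  constructor
  · intro h hh
    obtain ⟨x, hx⟩ := exists_vd hh false
    obtain ⟨z, hz⟩ := hx.nd
    have hini : M.st = M.st → ∀ j : Fin (K + 1), j ≠ 0 → (rini n : Fin (K + 1) → ℕ) j = 0 := by
      intro _ j hj
      simp [rini, hj]
    rcases h x with ⟨i, h⟩ | h | h | ⟨y, h1, h2, h3⟩ | h
    · rw [hz] at h; cases h
    · rw [hz] at h
      obtain ⟨l, h⟩ := h
      generalize h2 : (G.c (.ch 5) : G Nd K) = w at h
      cases h with
      | root _ _ h =>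
        cases h with
        | fin => cases h2
        | garb => cases h2
        | pr u z h => rw [← h2] at h; cases h
        | col t h => exact h rfl
        | cst => simp at h2
      | reg => cases h2
      | tail => cases h2
    · exact not_grb hx.ql hx.cnt hx.p0 (hx.garb hini) h
    · have hy : y = num false n := by
        rw [hz] at h1
        obtain ⟨l, h1⟩ := h1
        have h4 := to_ch1 h2
        cases h1 with
        | root _ _ h =>
          cases h with
          | fin => rcases h4 with h4 | h4 <;> simp [numHd] at h4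
          | garb => rcases h4 with h4 | h4 <;> simp [numHd] at h4
          | pr u z h => rfl
          | col t h => exact absurd rfl h
          | cst => rcases h4 with h4 | h4 <;> simp [numHd] at h4
        | reg => rcases h4 with h4 | h4 <;> simp [numHd] at h4
        | tail => rcases h4 with h4 | h4 <;> simp [numHd] at h4
      rw [hy, ne_num] at h3
      exact h3 rfl
    · exact not_err hx.ql hx.cnt hx.p0 h
  · intro hh x
    by_contra h
    simp only [Th, not_or] at h
    obtain ⟨h1, h2, h3, h4, h5⟩ := h
    have hx : ∃ u z, x = .nd M.st u z := by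
      cases x with
      | c x =>
        exfalso
        cases x with
        | ch i =>
          rcases Fin.eq_castSucc_or_eq_last i with ⟨i', rfl⟩ | rfl
          · exact h1 ⟨i', rfl⟩
          · exact h2 ⟨_, .root _ _ (.chn 5)⟩
        | _ => exact h2 ⟨_, .root _ _ (.col _ trivial)⟩
      | s t => exact absurd ⟨_, .root _ _ (.col _ trivial)⟩ h2
      | B t => exact absurd ⟨_, .root _ _ (.col _ trivial)⟩ h2
      | nd a u z =>
        by_cases ha : a = M.st
        · subst ha; exact ⟨u, z, rfl⟩
        · exact absurd ⟨_, .root _ _ (.col _ ha)⟩ h2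
    obtain ⟨u, z, rfl⟩ := hx
    have hg : ∀ t, ¬ St M .garb (.nd M.st u z) t := fun t h => h3 ⟨t, ⟨_, h⟩, garb_cl h rfl⟩
    have hnum : ∀ j, ∃ b k, u j = num b k := fun j => num_of (M := M) (u j)
      (by
        by_contra h
        exact hg _ (.root _ _ (.garb _ (.reg _ _ _ j (by simpa using h)))))
      (fun t h => hg _ (.reg _ _ _ _ _ h))
    have h6 := hlt_of _ M.st u z rfl hg h5
    have h7 : (fun j => ht (u j)) = rini n := by
      funext j
      by_cases hj : j = 0
      · subst hj
        obtain ⟨d, k, hk⟩ := hnum 0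
        simp only [rini, if_true, hk, ht_num]
        by_contra hne
        apply h4
        refine ⟨u 0, ⟨_, .root _ _ (.pr _ _ (by rw [hk, numHd_num]))⟩, ?_, ?_⟩
        · rw [hk]
          cases k with
          | zero => exact ⟨_, .root _ _ (.nz _)⟩
          | succ k => exact ⟨_, .root _ _ (.ns _)⟩
        · rw [hk, ne_num]; exact hne
      · obtain ⟨d, k, hk⟩ := hnum j
        simp only [rini, hj, if_false, hk, ht_num]
        cases k with
        | zero => rfl
        | succ k => exact (hg _ (.root _ _ (.garb _ (.st _ _ j _ hj hk)))).elim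
    rw [h7] at h6
    exact hh h6

end Pool.Agent.X238.Osr
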