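import Pool.Agent.X238.Osr.Sys

set_option autoImplicit false

/-!
# Closed walks
-/

namespace Pool.Agent.X238.Osr

open Function

variable {Nd : Type} {K : ℕ} {M : AM Nd K}

variable (M) in
/-- walks -/
def Wk : ℕ → G Nd K → G Nd K → Prop
  | 0, t, t' => t = t'
  | n + 1, t, t' => ∃ w, Ss M t w ∧ Wk n w t'

theorem wk_mu : ∀ (n : ℕ) (t t' : G Nd K), Wk M n t t' → mu t' ≤ mu t := by
  intro n
  induction n with
  | zero => rintro t t' rfl; exact le_rfl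
  | succ n ih =>
    rintro t t' ⟨w, ⟨l, h1⟩, h2⟩
    have h3 := ih _ _ h2
    rcases st_mu h1 with ⟨-, h4⟩ | ⟨-, h4⟩ <;> omega

/-- phases -/
def ph5 : G Nd K → ZMod 5 := wt (fun x => match x with | .om i => i | _ => 0) 0 0 0
/-- phases -/
def ph6 : G Nd K → ZMod 6 := wt (fun x => match x with | .k0 i => i | _ => 0) 0 0 0
/-- phases -/
def ph7 : G Nd K → ZMod 7 := wt (fun x => match x with | .k1 i => i | _ => 0) 0 0 0
/-- phases -/
def ph8 : G Nd K → ZMod 8 := wt (fun x => match x with | .mm i => i | _ => 0) 0 0 0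

/-- the effect of a step on a cycle -/
theorem cyc_eff {l : Lab} {t w : G Nd K} (h : St M l t w) (hl : isCyc l = true)
    (hE : cnt .tE t = 0) : (∀ T, cnt T w = cnt T t) ∧ ∃ a b c d : ℕ, a + b + c + d = 1 ∧
      ph5 w = ph5 t + a ∧ ph6 w = ph6 t + b ∧ ph7 w = ph7 t + c ∧ ph8 w = ph8 t + d ∧
      (0 < a → 0 < cnt .tO t) ∧ (0 < b → 0 < cnt .t0 t) ∧ (0 < c → 0 < cnt .t1 t) ∧
      (0 < d → 0 < cnt .tM t) := by
  obtain ⟨x, y, h1, h2⟩ := ctx h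
  have hc : ∀ T, ∃ r, cnt T t = cnt T x + r ∧ cnt T w = cnt T y + r := fun T =>
    h2 ℕ (fun x => if isT T x then 1 else 0) 0 0 0
  obtain ⟨r5, p5, q5⟩ := h2 (ZMod 5) (fun x => match x with | .om i => i | _ => 0) 0 0 0
  obtain ⟨r6, p6, q6⟩ := h2 (ZMod 6) (fun x => match x with | .k0 i => i | _ => 0) 0 0 0
  obtain ⟨r7, p7, q7⟩ := h2 (ZMod 7) (fun x => match x with | .k1 i => i | _ => 0) 0 0 0
  obtain ⟨r8, p8, q8⟩ := h2 (ZMod 8) (fun x => match x with | .mm i => i | _ => 0) 0 0 0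
  change ph5 t = ph5 x + r5 at p5
  change ph5 w = ph5 y + r5 at q5
  change ph6 t = ph6 x + r6 at p6
  change ph6 w = ph6 y + r6 at q6
  change ph7 t = ph7 x + r7 at p7
  change ph7 w = ph7 y + r7 at q7
  change ph8 t = ph8 x + r8 at p8
  change ph8 w = ph8 y + r8 at q8
  have hcnt : (∀ T, cnt T y = cnt T x) → ∀ T, cnt T w = cnt T t := by
    intro he T
    obtain ⟨r, h3, h4⟩ := hc T
    rw [h3, h4, he T]
  have hpos : ∀ T, 0 < cnt T x → 0 < cnt T t := by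
    intro T h
    obtain ⟨r, h3, h4⟩ := hc T
    omega
  cases h1 with
  | cE =>
    exfalso
    have := hpos .tE (by simp [isT])
    omega
  | cO i =>
    refine ⟨hcnt (fun T => by cases T <;> rfl), 1, 0, 0, 0, rfl, ?_, ?_, ?_, ?_, ?_, ?_, ?_, ?_⟩
    · rw [q5, p5]; simp only [ph5, wt]; push_cast; ring
    · rw [q6, p6]; simp [ph6, wt]
    · rw [q7, p7]; simp [ph7, wt]
    · rw [q8, p8]; simp [ph8, wt]
    · intro _; exact hpos .tO (by simp [isT])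
    · intro h; omega
    · intro h; omega
    · intro h; omega
  | c0 i =>
    refine ⟨hcnt (fun T => by cases T <;> rfl), 0, 1, 0, 0, rfl, ?_, ?_, ?_, ?_, ?_, ?_, ?_, ?_⟩
    · rw [q5, p5]; simp [ph5, wt]
    · rw [q6, p6]; simp only [ph6, wt]; push_cast; ring
    · rw [q7, p7]; simp [ph7, wt]
    · rw [q8, p8]; simp [ph8, wt]
    · intro h; omega
    · intro _; exact hpos .t0 (by simp [isT])
    · intro h; omega
    · intro h; omega
  | c1 i =>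
    refine ⟨hcnt (fun T => by cases T <;> rfl), 0, 0, 1, 0, rfl, ?_, ?_, ?_, ?_, ?_, ?_, ?_, ?_⟩
    · rw [q5, p5]; simp [ph5, wt]
    · rw [q6, p6]; simp [ph6, wt]
    · rw [q7, p7]; simp only [ph7, wt]; push_cast; ring
    · rw [q8, p8]; simp [ph8, wt]
    · intro h; omega
    · intro h; omega
    · intro _; exact hpos .t1 (by simp [isT])
    · intro h; omega
  | cM i =>
    refine ⟨hcnt (fun T => by cases T <;> rfl), 0, 0, 0, 1, rfl, ?_, ?_, ?_, ?_, ?_, ?_, ?_, ?_⟩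
    · rw [q5, p5]; simp [ph5, wt]
    · rw [q6, p6]; simp [ph6, wt]
    · rw [q7, p7]; simp [ph7, wt]
    · rw [q8, p8]; simp only [ph8, wt]; push_cast; ring
    · intro h; omega
    · intro h; omega
    · intro h; omega
    · intro _; exact hpos .tM (by simp [isT])
  | _ => cases hl

theorem wk_cyc : ∀ (n : ℕ) (t t' : G Nd K), Wk M n t t' → mu t' = mu t → cnt .tE t = 0 →
    ∃ a b c d : ℕ, a + b + c + d = n ∧
      ph5 t' = ph5 t + a ∧ ph6 t' = ph6 t + b ∧ ph7 t' = ph7 t + c ∧ ph8 t' = ph8 t + d ∧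
      (0 < a → 0 < cnt .tO t) ∧ (0 < b → 0 < cnt .t0 t) ∧ (0 < c → 0 < cnt .t1 t) ∧
      (0 < d → 0 < cnt .tM t) := by
  intro n
  induction n with
  | zero =>
    rintro t t' rfl _ _
    exact ⟨0, 0, 0, 0, rfl, by simp, by simp, by simp, by simp, by simp, by simp, by simp,
      by simp⟩
  | succ n ih =>
    rintro t t' ⟨w, ⟨l, h1⟩, h2⟩ h3 h4
    have h5 := wk_mu _ _ _ h2
    have hl : isCyc l = true ∧ mu w = mu t := by
      rcases st_mu h1 with h | ⟨h, h6⟩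
      · exact h
      · omega
    obtain ⟨e, a, b, c, d, e0, e1, e2, e3, e4, e5, e6, e7, e8⟩ := cyc_eff h1 hl.1 h4
    obtain ⟨a', b', c', d', f0, f1, f2, f3, f4, f5, f6, f7, f8⟩ := ih w t' h2 (by omega)
      (by rw [e]; exact h4)
    rw [e] at f5 f6 f7 f8
    refine ⟨a + a', b + b', c + c', d + d', by omega, ?_, ?_, ?_, ?_, ?_, ?_, ?_, ?_⟩
    · rw [f1, e1]; push_cast; ring
    · rw [f2, e2]; push_cast; ring
    · rw [f3, e3]; push_cast; ring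
    · rw [f4, e4]; push_cast; ring
    · intro h
      rcases Nat.eq_zero_or_pos a with h' | h'
      · exact f5 (by omega)
      · exact e5 h'
    · intro h
      rcases Nat.eq_zero_or_pos b with h' | h'
      · exact f6 (by omega)
      · exact e6 h'
    · intro h
      rcases Nat.eq_zero_or_pos c with h' | h'
      · exact f7 (by omega)
      · exact e7 h'
    · intro h
      rcases Nat.eq_zero_or_pos d with h' | h'
      · exact f8 (by omega)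
      · exact e8 h'

variable (M) in
/-- closed walks -/
def Cl (n : ℕ) (t : G Nd K) : Prop := Wk M n t t

theorem cl_arith {n : ℕ} {t : G Nd K} (h : Cl M n t) (hE : cnt .tE t = 0) :
    ∃ a b c d : ℕ, a + b + c + d = n ∧ 5 ∣ a ∧ 6 ∣ b ∧ 7 ∣ c ∧ 8 ∣ d ∧
      (0 < a → 0 < cnt .tO t) ∧ (0 < b → 0 < cnt .t0 t) ∧ (0 < c → 0 < cnt .t1 t) ∧
      (0 < d → 0 < cnt .tM t) := by
  obtain ⟨a, b, c, d, e0, e1, e2, e3, e4, e5⟩ := wk_cyc n t t h rfl hE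
  refine ⟨a, b, c, d, e0, ?_, ?_, ?_, ?_, e5⟩
  · rw [← ZMod.natCast_eq_zero_iff]; simpa using e1
  · rw [← ZMod.natCast_eq_zero_iff]; simpa using e2
  · rw [← ZMod.natCast_eq_zero_iff]; simpa using e3
  · rw [← ZMod.natCast_eq_zero_iff]; simpa using e4

theorem cl5 {t : G Nd K} (h : Cl M 5 t) (hE : cnt .tE t = 0) : 0 < cnt .tO t := by
  obtain ⟨a, b, c, d, e0, ⟨a', rfl⟩, ⟨b', rfl⟩, ⟨c', rfl⟩, ⟨d', rfl⟩, h1, -⟩ := cl_arith h hE
  exact h1 (by omega)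

theorem cl6 {t : G Nd K} (h : Cl M 6 t) (hE : cnt .tE t = 0) : 0 < cnt .t0 t := by
  obtain ⟨a, b, c, d, e0, ⟨a', rfl⟩, ⟨b', rfl⟩, ⟨c', rfl⟩, ⟨d', rfl⟩, -, h1, -⟩ := cl_arith h hE
  exact h1 (by omega)

theorem cl7 {t : G Nd K} (h : Cl M 7 t) (hE : cnt .tE t = 0) : 0 < cnt .t1 t := by
  obtain ⟨a, b, c, d, e0, ⟨a', rfl⟩, ⟨b', rfl⟩, ⟨c', rfl⟩, ⟨d', rfl⟩, -, -, h1, -⟩ :=
    cl_arith h hE
  exact h1 (by omega)

theorem cl8 {t : G Nd K} (h : Cl M 8 t) (hE : cnt .tE t = 0) : 0 < cnt .tM t := by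
  obtain ⟨a, b, c, d, e0, ⟨a', rfl⟩, ⟨b', rfl⟩, ⟨c', rfl⟩, ⟨d', rfl⟩, -, -, -, h1⟩ :=
    cl_arith h hE
  exact h1 (by omega)

theorem cl1 {t : G Nd K} (h : Ss M t t) : 0 < cnt .tE t := by
  by_contra hE
  obtain ⟨a, b, c, d, e0, ⟨a', rfl⟩, ⟨b', rfl⟩, ⟨c', rfl⟩, ⟨d', rfl⟩, -⟩ :=
    cl_arith (n := 1) (t := t) ⟨t, h, rfl⟩ (by omega)
  omega

/-! ### lifting -/

/-- a context -/
def Mono (M : AM Nd K) (C : G Nd K → G Nd K) : Prop := ∀ l t t', St M l t t' → St M l (C t) (C t')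

theorem mono_wk {C : G Nd K → G Nd K} (hC : Mono M C) : ∀ (n : ℕ) (t t' : G Nd K), Wk M n t t' →
    Wk M n (C t) (C t') := by
  intro n
  induction n with
  | zero => rintro t t' rfl; rfl
  | succ n ih =>
    rintro t t' ⟨w, ⟨l, h1⟩, h2⟩
    exact ⟨C w, ⟨l, hC _ _ _ h1⟩, ih _ _ h2⟩

theorem mono_comp {C D : G Nd K → G Nd K} (hC : Mono M C) (hD : Mono M D) :
    Mono M fun t => C (D t) := fun l _ _ h => hC l _ _ (hD l _ _ h)

theorem mono_id : Mono M fun t => t := fun _ _ _ h => h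

theorem mono_tail (a : Nd) (u : Fin (K + 1) → G Nd K) : Mono M (fun z => .nd a u z) :=
  fun _ _ _ h => .tail _ _ _ _ h

theorem mono_reg (a : Nd) (u : Fin (K + 1) → G Nd K) (z : G Nd K) (j : Fin (K + 1)) :
    Mono M (fun t => .nd a (update u j t) z) := by
  intro l t t' h
  have := St.reg (M := M) (l := l) a (update u j t) z j t' (by rw [update_self]; exact h)
  rwa [update_idem] at this

theorem om_cl : Cl M 5 (.c (.om 0) : G Nd K) :=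
  ⟨_, ⟨_, .root _ _ (.cO 0)⟩, _, ⟨_, .root _ _ (.cO _)⟩, _, ⟨_, .root _ _ (.cO _)⟩, _,
    ⟨_, .root _ _ (.cO _)⟩, _, ⟨_, .root _ _ (.cO _)⟩, by congr 2⟩

theorem E_cl (n : ℕ) : Cl M n (.c .E : G Nd K) := by
  unfold Cl
  induction n with
  | zero => rfl
  | succ n ih => exact ⟨_, ⟨_, .root _ _ .cE⟩, ih⟩

theorem k0_cl : Cl M 6 (.c (.k0 0) : G Nd K) :=
  ⟨_, ⟨_, .root _ _ (.c0 0)⟩, _, ⟨_, .root _ _ (.c0 _)⟩, _, ⟨_, .root _ _ (.c0 _)⟩, _,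
    ⟨_, .root _ _ (.c0 _)⟩, _, ⟨_, .root _ _ (.c0 _)⟩, _, ⟨_, .root _ _ (.c0 _)⟩, by congr 2⟩

theorem k1_cl : Cl M 7 (.c (.k1 0) : G Nd K) :=
  ⟨_, ⟨_, .root _ _ (.c1 0)⟩, _, ⟨_, .root _ _ (.c1 _)⟩, _, ⟨_, .root _ _ (.c1 _)⟩, _,
    ⟨_, .root _ _ (.c1 _)⟩, _, ⟨_, .root _ _ (.c1 _)⟩, _, ⟨_, .root _ _ (.c1 _)⟩, _,
    ⟨_, .root _ _ (.c1 _)⟩, by congr 2⟩

theorem mm_cl : Cl M 8 (.c (.mm 0) : G Nd K) :=
  ⟨_, ⟨_, .root _ _ (.cM 0)⟩, _, ⟨_, .root _ _ (.cM _)⟩, _, ⟨_, .root _ _ (.cM _)⟩, _,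
    ⟨_, .root _ _ (.cM _)⟩, _, ⟨_, .root _ _ (.cM _)⟩, _, ⟨_, .root _ _ (.cM _)⟩, _,
    ⟨_, .root _ _ (.cM _)⟩, _, ⟨_, .root _ _ (.cM _)⟩, by congr 2⟩

end Pool.Agent.X238.Osr
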