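import Mathlib

set_option autoImplicit false

/-!
# The positive fragment of the theory of one-step rewriting
-/

namespace Pool.Agent.X238.Osr

/-- Terms over a signature: `F` is the set of function symbols, `ar` gives the arities, `V` is the
set of variables. -/
inductive Tm (F : Type) (ar : F → ℕ) (V : Type) : Type
  | var (v : V) : Tm F ar V
  | app (f : F) (ts : Fin (ar f) → Tm F ar V) : Tm F ar V

variable {F : Type} {ar : F → ℕ}

/-- Ground terms: terms without variables. -/
abbrev Gr (F : Type) (ar : F → ℕ) : Type := Tm F ar Empty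

/-- Substitution. -/
def Tm.subst {V W : Type} (σ : V → Tm F ar W) : Tm F ar V → Tm F ar W
  | .var v => σ v
  | .app f ts => .app f fun i => (ts i).subst σ

/-- The variables that occur in a term. -/
def Tm.vars {V : Type} : Tm F ar V → Set V
  | .var v => {v}
  | .app _ ts => {v | ∃ i, v ∈ (ts i).vars}

/-- A rule `l → r` of a rewrite system: `l` is not a variable and every variable of `r` occurs
in `l`. -/
def IsRule (p : Tm F ar ℕ × Tm F ar ℕ) : Prop :=
  (∀ v, p.1 ≠ .var v) ∧ p.2.vars ⊆ p.1.vars

/-- One-step rewriting of ground terms. -/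
inductive Rew (R : Set (Tm F ar ℕ × Tm F ar ℕ)) : Gr F ar → Gr F ar → Prop
  | rule (l r : Tm F ar ℕ) (h : (l, r) ∈ R) (σ : ℕ → Gr F ar) : Rew R (l.subst σ) (r.subst σ)
  | arg (f : F) (ts : Fin (ar f) → Gr F ar) (i : Fin (ar f)) (t : Gr F ar) (h : Rew R (ts i) t) :
      Rew R (.app f ts) (.app f (Function.update ts i t))

/-- Positive first-order formulas in the language with equality and one binary relation symbol;
the variables are numbered. -/
inductive PF : Type
  | eq (i j : ℕ)
  | rel (i j : ℕ)
  | and (a b : PF)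
  | or (a b : PF)
  | all (i : ℕ) (a : PF)
  | ex (i : ℕ) (a : PF)

/-- The truth of a formula in the structure `(T, Q)` under an assignment. -/
def PF.holds {T : Type} (Q : T → T → Prop) : PF → (ℕ → T) → Prop
  | .eq i j, e => e i = e j
  | .rel i j, e => Q (e i) (e j)
  | .and a b, e => a.holds Q e ∧ b.holds Q e
  | .or a b, e => a.holds Q e ∨ b.holds Q e
  | .all i a, e => ∀ t, a.holds Q (Function.update e i t)
  | .ex i a, e => ∃ t, a.holds Q (Function.update e i t)

/-- Free variables. -/
def PF.fv : PF → Set ℕ
  | .eq i j => {i, j}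
  | .rel i j => {i, j}
  | .and a b => a.fv ∪ b.fv
  | .or a b => a.fv ∪ b.fv
  | .all i a => a.fv \ {i}
  | .ex i a => a.fv \ {i}

/-- The number of a formula. -/
def PF.code : PF → ℕ
  | .eq i j => Nat.pair 0 (Nat.pair i j)
  | .rel i j => Nat.pair 1 (Nat.pair i j)
  | .and a b => Nat.pair 2 (Nat.pair a.code b.code)
  | .or a b => Nat.pair 3 (Nat.pair a.code b.code)
  | .all i a => Nat.pair 4 (Nat.pair i a.code)
  | .ex i a => Nat.pair 5 (Nat.pair i a.code)

end Pool.Agent.X238.Osr
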