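import Pool.Agent.X238.Osr.Compl
import Pool.Agent.X238.Osr.Defs

set_option autoImplicit false

/-!
# The sentences
-/

namespace Pool.Agent.X238.Osr

open Function

/-! ### syntax -/

/-- there is a walk of length `n` from the variable `20` to the variable `j` -/
def Pw : ℕ → ℕ → PF
  | 0, j => .eq 20 j
  | n + 1, j => .ex 21 (.and (.rel 20 21) (.ex 20 (.and (.eq 20 21) (Pw n j))))

/-- there is a closed walk of length `n` -/
def Clf (n i : ℕ) : PF := .ex 20 (.and (.eq 20 i) (Pw n i))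

/-- there is a walk of length `n` -/
def WLf (n i : ℕ) : PF := .ex 22 (.ex 20 (.and (.eq 20 i) (Pw n 22)))

/-- the number `13` is not `n` -/
def NEf : ℕ → PF
  | 0 => .ex 30 (.and (.rel 13 30) (.rel 30 3))
  | n + 1 => .or (.rel 13 0) (.ex 30 (.and (.rel 13 30) (.and (.rel 30 3)
      (.ex 13 (.and (.rel 30 13) (.and (.rel 13 1) (NEf n)))))))

/-- a pattern is detected -/
def Grbf : PF := .ex 7 (.and (.rel 6 7) (Clf 5 7))

/-- an error is detected -/
def Errf : PF :=
  .ex 7 (.and (.rel 6 7) (.ex 8 (.and (.rel 7 8) (.and (Clf 6 8) (.and (Clf 7 8)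
    (.ex 9 (.and (.rel 8 9) (.and (Clf 8 9) (.and (Clf 7 9)
      (.ex 10 (.and (.rel 8 10) (.and (Clf 8 10) (.and (Clf 6 10)
        (.ex 11 (.and (.rel 9 11) (.and (.rel 10 11)
          (.ex 12 (.and (.rel 11 12) (.rel 12 12)))))))))))))))))))

/-- the main part -/
def Thf (φ : PF) : PF := .all 6 (.or
  (.or (.eq 6 0) (.or (.eq 6 1) (.or (.eq 6 2) (.or (.eq 6 3) (.or (.eq 6 4) (.eq 6 5))))))
  (.or (.rel 6 5) (.or Grbf (.or (.ex 13 (.and (.rel 6 13) (.and (.rel 13 1) φ))) Errf))))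

/-- the variable `j` is different from the `j`-th constant of the chain -/
def er (j : ℕ) : ℕ → PF
  | 0 => WLf (j + 1) j
  | m + 1 => .or (.eq j m) (er j m)

/-- the variable `j` is the `j`-th constant of the chain -/
def Nm (j : ℕ) (φ : PF) : PF := .all j (.or (er j j) φ)

/-- the context of the sentences -/
def Cx (φ : PF) : PF := Nm 0 (Nm 1 (Nm 2 (Nm 3 (Nm 4 (Nm 5 (Thf φ))))))

/-- the sentences -/
def Psi (n : ℕ) : PF := Cx (NEf n)

/-! ### semantics -/

variable {Nd : Type} {K : ℕ} {M : AM Nd K}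

theorem holds_Pw (n : ℕ) : ∀ (j : ℕ) (e : ℕ → G Nd K), j ≠ 20 → j ≠ 21 →
    ((Pw n j).holds (Ss M) e ↔ Wk M n (e 20) (e j)) := by
  induction n with
  | zero => intro j e _ _; rfl
  | succ n ih =>
    intro j e h0 h1
    simp only [Pw, PF.holds, Wk]
    constructor
    · rintro ⟨w, h2, w', h3, h4⟩
      rw [ih j _ h0 h1] at h4
      simp only [update_self, update_of_ne h0, update_of_ne h1, ne_eq,
        Nat.reduceEqDiff, not_false_eq_true, update_of_ne] at h2 h3 h4
      subst h3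
      exact ⟨w', h2, h4⟩
    · rintro ⟨w, h2, h3⟩
      refine ⟨w, by simpa using h2, w, by simp, ?_⟩
      rw [ih j _ h0 h1]
      simpa [update_of_ne h0, update_of_ne h1] using h3

theorem holds_Clf (n i : ℕ) (e : ℕ → G Nd K) (h0 : i ≠ 20) (h1 : i ≠ 21) :
    (Clf n i).holds (Ss M) e ↔ Cl M n (e i) := by
  simp only [Clf, PF.holds, holds_Pw n i _ h0 h1, update_self, update_of_ne h0, Cl]
  constructor
  · rintro ⟨t, rfl, h⟩; exact h
  · intro h; exact ⟨_, rfl, h⟩

theorem holds_WLf (n i : ℕ) (e : ℕ → G Nd K) (h0 : i ≠ 20) (h2 : i ≠ 22) :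
    (WLf n i).holds (Ss M) e ↔ ∃ t, Wk M n (e i) t := by
  simp only [WLf, PF.holds, holds_Pw n 22 _ (by omega) (by omega), update_self]
  constructor
  · rintro ⟨t, t', h3, h4⟩
    rw [update_of_ne h0, update_of_ne h2] at h3
    refine ⟨t, ?_⟩
    rw [h3] at h4
    simpa using h4
  · rintro ⟨t, h⟩
    refine ⟨t, e i, by rw [update_of_ne h0, update_of_ne h2], ?_⟩
    simpa using h

/-- the constants of the chain -/
def cn (i : ℕ) : G Nd K := .c (.ch (Fin.ofNat 7 i))

theorem cn_inj {i j : ℕ} (hi : i < 7) (hj : j < 7) (h : (cn i : G Nd K) = cn j) : i = j := by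
  simp only [cn, G.c.injEq, Cst.ch.injEq] at h
  have := congrArg Fin.val h
  simp only [Fin.ofNat, Nat.mod_eq_of_lt hi, Nat.mod_eq_of_lt hj] at this
  exact this

theorem cn_step {i : ℕ} (hi : i < 6) : Ss M (cn (i + 1)) (cn i) := by
  have h := Rt.chn (M := M) ⟨i, hi⟩
  have e1 : (Fin.ofNat 7 (i + 1)) = (⟨i, hi⟩ : Fin 6).succ := by
    apply Fin.ext
    simp only [Fin.ofNat, Fin.succ_mk]
    omega
  have e2 : (Fin.ofNat 7 i) = (⟨i, hi⟩ : Fin 6).castSucc := by
    apply Fin.ext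
    simp only [Fin.ofNat, Fin.castSucc_mk]
    omega
  unfold cn
  rw [e1, e2]
  exact ⟨_, .root _ _ h⟩

theorem cn_step_inv {i : ℕ} (hi : i < 7) {w : G Nd K} (h : Ss M (cn i) w) :
    ∃ i', i = i' + 1 ∧ w = cn i' := by
  obtain ⟨l, h⟩ := h
  generalize h2 : (cn i : G Nd K) = y at h
  cases h with
  | root _ _ h =>
    cases h with
    | chn i' =>
      simp only [cn, G.c.injEq, Cst.ch.injEq] at h2
      have h3 := congrArg Fin.val h2
      simp only [Fin.ofNat, Nat.mod_eq_of_lt hi, Fin.val_succ] at h3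
      refine ⟨i', h3, ?_⟩
      simp only [cn, G.c.injEq, Cst.ch.injEq]
      apply Fin.ext
      simp only [Fin.val_castSucc, Fin.ofNat]
      omega
    | col t h => rw [← h2] at h; exact h.elim
    | garb t h => rw [← h2] at h; cases h
    | _ => simp [cn] at h2
  | _ => simp [cn] at h2

theorem cn_no (i : ℕ) : i < 7 → ∀ t : G Nd K, ¬ Wk M (i + 1) (cn i) t := by
  induction i with
  | zero =>
    rintro hi t ⟨w, h, -⟩
    obtain ⟨i', h, -⟩ := cn_step_inv hi h
    omega
  | succ i ih =>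
    rintro hi t ⟨w, h, h2⟩
    obtain ⟨i', h, rfl⟩ := cn_step_inv hi h
    obtain rfl : i = i' := by omega
    exact ih (by omega) t h2

theorem wk_split (m n : ℕ) : ∀ (t t' : G Nd K), Wk M (m + n) t t' → ∃ w, Wk M m t w := by
  induction m with
  | zero => intro t t' _; exact ⟨t, rfl⟩
  | succ m ih =>
    intro t t' h
    rw [Nat.succ_add] at h
    obtain ⟨w, h1, h2⟩ := h
    obtain ⟨w', h3⟩ := ih w t' h2
    exact ⟨w', w, h1, h3⟩

theorem cn_wk : ∀ i, i < 7 → Wk M i (cn i : G Nd K) (cn 0) := by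
  intro i
  induction i with
  | zero => intro _; rfl
  | succ i ih => intro hi; exact ⟨cn i, cn_step (by omega), ih (by omega)⟩

theorem exists_wk {j : ℕ} (hj : j < 6) (t : G Nd K) : t = cn j ∨ (∃ i, i < j ∧ t = cn i) ∨
    ∃ w, Wk M (j + 1) t w := by
  have h5 : Ss M t (.c (.ch 5)) → ∃ w, Wk M (j + 1) t w := by
    intro h
    have h6 : Wk M 6 t (cn 0) := ⟨_, h, cn_wk 5 (by omega)⟩
    obtain ⟨r, hr⟩ : ∃ r, 6 = j + 1 + r := ⟨5 - j, by omega⟩
    rw [hr] at h6
    exact wk_split _ _ _ _ h6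
  cases t with
  | c x =>
    cases x with
    | ch i =>
      have e : (G.c (.ch i) : G Nd K) = cn i.val := by
        simp only [cn, G.c.injEq, Cst.ch.injEq]
        apply Fin.ext
        simp only [Fin.ofNat]
        omega
      rw [e]
      rcases lt_trichotomy i.val j with h | h | h
      · exact Or.inr (Or.inl ⟨_, h, rfl⟩)
      · left; rw [h]
      · right; right
        have h6 := cn_wk (M := M) i.val (by omega)
        obtain ⟨r, hr⟩ : ∃ r, i.val = j + 1 + r := ⟨i.val - j - 1, by omega⟩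
        have h7 : Wk M (j + 1 + r) (cn i.val) (cn 0) := by rw [← hr]; exact h6
        exact wk_split _ _ _ _ h7
    | _ => exact Or.inr (Or.inr (h5 ⟨_, .root _ _ (.col _ trivial)⟩))
  | s t => exact Or.inr (Or.inr (h5 ⟨_, .root _ _ (.col _ trivial)⟩))
  | B t => exact Or.inr (Or.inr (h5 ⟨_, .root _ _ (.col _ trivial)⟩))
  | nd a u z =>
    by_cases ha : a = M.st
    · subst ha
      right; right
      have h7 : Wk M 7 (.nd M.st u z) (cn 0) := ⟨cn 6, ⟨_, .root _ _ (.cst _ _)⟩,
        cn_wk 6 (by omega)⟩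
      obtain ⟨r, hr⟩ : ∃ r, 7 = j + 1 + r := ⟨6 - j, by omega⟩
      rw [hr] at h7
      exact wk_split _ _ _ _ h7
    · exact Or.inr (Or.inr (h5 ⟨_, .root _ _ (.col _ ha)⟩))

theorem holds_er (j : ℕ) (hj : j < 20) (e : ℕ → G Nd K) : ∀ m,
    ((er j m).holds (Ss M) e ↔ (∃ i, i < m ∧ e j = e i) ∨ ∃ w, Wk M (j + 1) (e j) w) := by
  intro m
  induction m with
  | zero =>
    simp only [er]
    rw [holds_WLf _ _ _ (by omega) (by omega)]
    simp
  | succ m ih =>
    simp only [er, PF.holds, ih]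
    constructor
    · rintro (h | ⟨i, h1, h2⟩ | h)
      · exact Or.inl ⟨m, by omega, h⟩
      · exact Or.inl ⟨i, by omega, h2⟩
      · exact Or.inr h
    · rintro (⟨i, h1, h2⟩ | h)
      · rcases Nat.lt_succ_iff_lt_or_eq.1 h1 with h | rfl
        · exact Or.inr (Or.inl ⟨i, h, h2⟩)
        · exact Or.inl h2
      · exact Or.inr (Or.inr h)

theorem holds_Nm {j : ℕ} (hj : j < 6) (φ : PF) (e : ℕ → G Nd K) (he : ∀ i, i < j → e i = cn i) :
    (Nm j φ).holds (Ss M) e ↔ φ.holds (Ss M) (update e j (cn j)) := by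
  simp only [Nm, PF.holds]
  constructor
  · intro h
    rcases h (cn j) with h | h
    · exfalso
      rw [holds_er j (by omega)] at h
      rcases h with ⟨i, h1, h2⟩ | ⟨w, h2⟩
      · rw [update_self, update_of_ne (by omega), he i h1] at h2
        have := cn_inj (by omega) (by omega) h2
        omega
      · rw [update_self] at h2
        exact cn_no j (by omega) w h2
    · exact h
  · intro h t
    rcases exists_wk (M := M) hj t with rfl | ⟨i, hi, rfl⟩ | ⟨w, h1⟩
    · exact Or.inr h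
    · left
      rw [holds_er j (by omega)]
      exact Or.inl ⟨i, hi, by rw [update_self, update_of_ne (by omega), he i hi]⟩
    · left
      rw [holds_er j (by omega)]
      exact Or.inr ⟨w, by rw [update_self]; exact h1⟩

theorem holds_NEf (n : ℕ) : ∀ e : ℕ → G Nd K, e 0 = cn 0 → e 1 = cn 1 → e 3 = cn 3 →
    ((NEf n).holds (Ss M) e ↔ NE M n (e 13)) := by
  induction n with
  | zero =>
    intro e h0 h1 h3
    simp only [NEf, PF.holds, NE]
    simp [h3]
    rfl
  | succ n ih =>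
    intro e h0 h1 h3
    simp only [NEf, PF.holds, NE]
    have key : ∀ w t, (NEf n).holds (Ss M) (update (update e 30 w) 13 t) ↔ NE M n t := by
      intro w t
      rw [ih _ (by simpa using h0) (by simpa using h1) (by simpa using h3)]
      simp
    simp only [key]
    simp [h0, h1, h3]
    rfl

theorem holds_Grbf (e : ℕ → G Nd K) : Grbf.holds (Ss M) e ↔ Grb M (e 6) := by
  simp only [Grbf, PF.holds, Grb]
  simp [holds_Clf]

theorem holds_Errf (e : ℕ → G Nd K) : Errf.holds (Ss M) e ↔ Err M (e 6) := by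
  simp only [Errf, PF.holds, Err]
  simp [holds_Clf]

theorem holds_Thf (n : ℕ) (e : ℕ → G Nd K) (he : ∀ i, i < 6 → e i = cn i) :
    (Thf (NEf n)).holds (Ss M) e ↔ ∀ x, Th M n x := by
  simp only [Thf, PF.holds, Th]
  refine forall_congr' fun x => ?_
  have h0 := he 0 (by omega)
  have h1 := he 1 (by omega)
  have h2 := he 2 (by omega)
  have h3 := he 3 (by omega)
  have h4 := he 4 (by omega)
  have h5 := he 5 (by omega)
  have key : ∀ y, (NEf n).holds (Ss M) (update (update e 6 x) 13 y) ↔ NE M n y := by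
    intro y
    rw [holds_NEf n _ (by simpa using h0) (by simpa using h1) (by simpa using h3)]
    simp
  rw [holds_Grbf, holds_Errf]
  simp only [key]
  simp only [update_self, ne_eq, Nat.reduceEqDiff, not_false_eq_true,
    update_of_ne, h5]
  have hfin : (∃ i : Fin 6, x = .c (.ch i.castSucc)) ↔
      (x = cn 0 ∨ x = cn 1 ∨ x = cn 2 ∨ x = cn 3 ∨ x = cn 4 ∨ x = cn 5) := by
    constructor
    · rintro ⟨i, rfl⟩
      fin_cases i
      · exact Or.inl rfl
      · exact Or.inr (Or.inl rfl)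
      · exact Or.inr (Or.inr (Or.inl rfl))
      · exact Or.inr (Or.inr (Or.inr (Or.inl rfl)))
      · exact Or.inr (Or.inr (Or.inr (Or.inr (Or.inl rfl))))
      · exact Or.inr (Or.inr (Or.inr (Or.inr (Or.inr rfl))))
    · rintro (rfl | rfl | rfl | rfl | rfl | rfl)
      · exact ⟨0, rfl⟩
      · exact ⟨1, rfl⟩
      · exact ⟨2, rfl⟩
      · exact ⟨3, rfl⟩
      · exact ⟨4, rfl⟩
      · exact ⟨5, rfl⟩
  rw [hfin]
  simp [h0, h1, h2, h3, h4]
  rfl

theorem holds_Psi (n : ℕ) (e : ℕ → G Nd K) :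
    (Psi n).holds (Ss M) e ↔ ¬ M.Hlt M.st (rini n) := by
  rw [← th_iff (M := M) n]
  unfold Psi Cx
  have hup : ∀ (j : ℕ) (e : ℕ → G Nd K), (∀ i, i < j → e i = cn i) →
      ∀ i, i < j + 1 → (update e j (cn j)) i = cn i := by
    intro j e he i hi
    by_cases h : i = j
    · subst h; rw [update_self]
    · rw [update_of_ne h]; exact he i (by omega)
  have e0 : ∀ i, i < 0 → e i = cn i := by intro i hi; omega
  have e1 := hup 0 e e0
  have e2 := hup 1 _ e1
  have e3 := hup 2 _ e2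
  have e4 := hup 3 _ e3
  have e5 := hup 4 _ e4
  have e6 := hup 5 _ e5
  rw [holds_Nm (by omega) _ _ e0, holds_Nm (by omega) _ _ e1, holds_Nm (by omega) _ _ e2,
    holds_Nm (by omega) _ _ e3, holds_Nm (by omega) _ _ e4, holds_Nm (by omega) _ _ e5,
    holds_Thf n _ e6]

/-! ### the sentences are closed -/

theorem fv_Pw (n j : ℕ) : (Pw n j).fv ⊆ {20, j} := by
  induction n with
  | zero => intro v hv; exact hv
  | succ n ih =>
    intro v hv
    simp only [Pw, PF.fv, Set.mem_diff, Set.mem_union, Set.mem_insert_iff,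
      Set.mem_singleton_iff] at hv ⊢
    have : v ∈ (Pw n j).fv → v = 20 ∨ v = j := fun h => by simpa using ih h
    tauto

theorem fv_Clf (n i : ℕ) : (Clf n i).fv ⊆ {i} := by
  intro v hv
  simp only [Clf, PF.fv, Set.mem_diff, Set.mem_union, Set.mem_insert_iff,
      Set.mem_singleton_iff] at hv ⊢
  have : v ∈ (Pw n i).fv → v = 20 ∨ v = i := fun h => by simpa using fv_Pw n i h
  tauto

theorem fv_er (j : ℕ) : ∀ m, m ≤ j → (er j m).fv ⊆ {v | v < j + 1} := by
  intro m
  induction m with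
  | zero =>
    intro _ v hv
    simp only [er, WLf, PF.fv, Set.mem_diff, Set.mem_union, Set.mem_insert_iff,
      Set.mem_singleton_iff] at hv
    have : v ∈ (Pw (j + 1) 22).fv → v = 20 ∨ v = 22 := fun h => by simpa using fv_Pw _ _ h
    have h : v = j := by tauto
    simp [h]
  | succ m ih =>
    intro hm v hv
    simp only [er, PF.fv, Set.mem_union, Set.mem_insert_iff, Set.mem_singleton_iff] at hv
    rcases hv with (rfl | rfl) | hv
    · simp
    · simp only [Set.mem_setOf_eq]; omega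
    · exact ih (by omega) hv

theorem fv_Nm (j : ℕ) (φ : PF) (h : φ.fv ⊆ {v | v < j + 1}) : (Nm j φ).fv ⊆ {v | v < j} := by
  intro v hv
  simp only [Nm, PF.fv, Set.mem_diff, Set.mem_union, Set.mem_singleton_iff] at hv
  have : v < j + 1 := by
    rcases hv.1 with h1 | h1
    · exact fv_er j j le_rfl h1
    · exact h h1
  simp only [Set.mem_setOf_eq]
  omega

theorem fv_NEf (n : ℕ) : (NEf n).fv ⊆ {0, 1, 3, 13} := by
  induction n with
  | zero =>
    intro v hv
    simp only [NEf, PF.fv, Set.mem_diff, Set.mem_union, Set.mem_insert_iff,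
      Set.mem_singleton_iff] at hv ⊢
    tauto
  | succ n ih =>
    intro v hv
    simp only [NEf, PF.fv, Set.mem_diff, Set.mem_union, Set.mem_insert_iff,
      Set.mem_singleton_iff] at hv ⊢
    have : v ∈ (NEf n).fv → v = 0 ∨ v = 1 ∨ v = 3 ∨ v = 13 := fun h => by simpa using ih h
    tauto

/-- the list of the free variables -/
def fvL : PF → List ℕ
  | .eq i j => [i, j]
  | .rel i j => [i, j]
  | .and a b => fvL a ++ fvL b
  | .or a b => fvL a ++ fvL b
  | .all i a => (fvL a).filter (· ≠ i)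
  | .ex i a => (fvL a).filter (· ≠ i)

theorem mem_fvL (φ : PF) (v : ℕ) : v ∈ φ.fv ↔ v ∈ fvL φ := by
  induction φ with
  | eq i j => simp [PF.fv, fvL]
  | rel i j => simp [PF.fv, fvL]
  | and a b iha ihb => simp [PF.fv, fvL, iha, ihb]
  | or a b iha ihb => simp [PF.fv, fvL, iha, ihb]
  | all i a ih => simp [PF.fv, fvL, ih]
  | ex i a ih => simp [PF.fv, fvL, ih]

theorem fvL_Errf : ∀ v ∈ fvL Errf, v = 6 := by decide

theorem fvL_Grbf : ∀ v ∈ fvL Grbf, v = 6 := by decide

theorem fv_Thf (n : ℕ) : (Thf (NEf n)).fv ⊆ {v | v < 5 + 1} := by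
  intro v hv
  have hN : v ∈ (NEf n).fv → v = 0 ∨ v = 1 ∨ v = 3 ∨ v = 13 :=
    fun h => by simpa using fv_NEf n h
  have hE : v ∈ Errf.fv → v = 6 := fun h => fvL_Errf v ((mem_fvL _ _).1 h)
  have hG : v ∈ Grbf.fv → v = 6 := fun h => fvL_Grbf v ((mem_fvL _ _).1 h)
  simp only [Thf, PF.fv, Set.mem_diff, Set.mem_union, Set.mem_insert_iff,
      Set.mem_singleton_iff] at hv
  simp only [Set.mem_setOf_eq]
  obtain ⟨hv, h6⟩ := hv
  rcases hv with hv | hv | hv | hv | hv
  · omega
  · omega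
  · exact absurd (hG hv) h6
  · obtain ⟨hv, h13⟩ := hv
    rcases hv with hv | hv | hv
    · omega
    · omega
    · have := hN hv
      omega
  · exact absurd (hE hv) h6

theorem fv_Psi (n : ℕ) : (Psi n).fv = ∅ := by
  have := fv_Nm 0 _ (fv_Nm 1 _ (fv_Nm 2 _ (fv_Nm 3 _ (fv_Nm 4 _ (fv_Nm 5 _ (fv_Thf n))))))
  apply Set.eq_empty_of_subset_empty
  intro v hv
  have h : v < 0 := this hv
  omega

/-! ### the sentences are computable -/

/-- the code of a formula context is computed from the code of the formula -/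
def PC (f : PF → PF) : Prop := ∃ H : ℕ → ℕ, Primrec H ∧ ∀ φ, (f φ).code = H φ.code

theorem pc_id : PC fun φ => φ := ⟨fun n => n, Primrec.id, fun _ => rfl⟩

theorem pc_const (ψ : PF) : PC fun _ => ψ := ⟨fun _ => ψ.code, Primrec.const _, fun _ => rfl⟩

theorem pc_and {f g : PF → PF} (hf : PC f) (hg : PC g) : PC fun φ => .and (f φ) (g φ) := by
  obtain ⟨H, h1, h2⟩ := hf
  obtain ⟨H', h3, h4⟩ := hg
  exact ⟨fun n => Nat.pair 2 (Nat.pair (H n) (H' n)),
    Primrec₂.natPair.comp (Primrec.const 2) (Primrec₂.natPair.comp h1 h3),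
    fun φ => by simp only [PF.code, h2, h4]⟩

theorem pc_or {f g : PF → PF} (hf : PC f) (hg : PC g) : PC fun φ => .or (f φ) (g φ) := by
  obtain ⟨H, h1, h2⟩ := hf
  obtain ⟨H', h3, h4⟩ := hg
  exact ⟨fun n => Nat.pair 3 (Nat.pair (H n) (H' n)),
    Primrec₂.natPair.comp (Primrec.const 3) (Primrec₂.natPair.comp h1 h3),
    fun φ => by simp only [PF.code, h2, h4]⟩

theorem pc_all {f : PF → PF} (i : ℕ) (hf : PC f) : PC fun φ => .all i (f φ) := by
  obtain ⟨H, h1, h2⟩ := hf
  exact ⟨fun n => Nat.pair 4 (Nat.pair i (H n)),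
    Primrec₂.natPair.comp (Primrec.const 4) (Primrec₂.natPair.comp (Primrec.const i) h1),
    fun φ => by simp only [PF.code, h2]⟩

theorem pc_ex {f : PF → PF} (i : ℕ) (hf : PC f) : PC fun φ => .ex i (f φ) := by
  obtain ⟨H, h1, h2⟩ := hf
  exact ⟨fun n => Nat.pair 5 (Nat.pair i (H n)),
    Primrec₂.natPair.comp (Primrec.const 5) (Primrec₂.natPair.comp (Primrec.const i) h1),
    fun φ => by simp only [PF.code, h2]⟩

theorem pc_Nm (j : ℕ) {f : PF → PF} (hf : PC f) : PC fun φ => Nm j (f φ) :=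
  pc_all _ (pc_or (pc_const _) hf)

theorem pc_Thf : PC Thf :=
  pc_all _ (pc_or (pc_const _) (pc_or (pc_const _) (pc_or (pc_const _) (pc_or
    (pc_ex _ (pc_and (pc_const _) (pc_and (pc_const _) pc_id))) (pc_const _)))))

theorem pc_Cx : PC Cx := pc_Nm 0 (pc_Nm 1 (pc_Nm 2 (pc_Nm 3 (pc_Nm 4 (pc_Nm 5 pc_Thf)))))

theorem primrec_Psi : Primrec fun n => (Psi n).code := by
  have h1 : PC fun φ => .or (.rel 13 0) (.ex 30 (.and (.rel 13 30) (.and (.rel 30 3)
      (.ex 13 (.and (.rel 30 13) (.and (.rel 13 1) φ)))))) :=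
    pc_or (pc_const _) (pc_ex _ (pc_and (pc_const _) (pc_and (pc_const _)
      (pc_ex _ (pc_and (pc_const _) (pc_and (pc_const _) pc_id))))))
  obtain ⟨H, hH, hH'⟩ := h1
  have h2 : Primrec fun n => (NEf n).code := by
    have : Primrec (Nat.rec (motive := fun _ => ℕ) (NEf 0).code fun _ m => H m) :=
      Primrec.nat_rec₁ _ (hH.comp Primrec.snd).to₂
    refine this.of_eq fun n => ?_
    induction n with
    | zero => rfl
    | succ n ih =>
      change H _ = _
      rw [ih, ← hH']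
      rfl
  obtain ⟨H2, h3, h4⟩ := pc_Cx
  exact (h3.comp h2).of_eq fun n => (h4 _).symm

end Pool.Agent.X238.Osr
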