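import Pool.Agent.X238.Osr.Cyc

set_option autoImplicit false

/-!
# Correct computations are not rejected
-/

namespace Pool.Agent.X238.Osr

open Function

variable {Nd : Type} {K : ℕ} {M : AM Nd K}

/-- unary terms -/
inductive Un : G Nd K → Prop
  | c (x : Cst) : Un (.c x)
  | s (t : G Nd K) : Un t → Un (.s t)
  | B (t : G Nd K) : Un t → Un (.B t)

/-- lists of unary terms -/
inductive Ql : G Nd K → Prop
  | un (t : G Nd K) : Un t → Ql t
  | nd (a : Nd) (u : Fin (K + 1) → G Nd K) (z : G Nd K) : (∀ j, Un (u j)) → Ql z →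
      Ql (.nd a u z)

/-- the last symbol -/
def lf : G Nd K → Cst
  | .c x => x
  | .s t => lf t
  | .B t => lf t
  | .nd _ _ _ => .nil

/-- the height -/
def ht : G Nd K → ℕ
  | .c _ => 0
  | .s t => ht t + 1
  | .B t => ht t + 1
  | .nd _ _ _ => 0

theorem cnt_un {t : G Nd K} (h : Un t) (T : Ty) : cnt T t = if isT T (lf t) then 1 else 0 := by
  induction h with
  | c x => rfl
  | s t _ ih => rw [cnt_s, ih]; rfl
  | B t _ ih => rw [cnt_B, ih]; rfl

theorem gp_un {t : G Nd K} (h : Gp M t) : Un t → ∃ t', t = .s t' := by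
  intro hu
  cases h with
  | s t _ => exact ⟨t, rfl⟩
  | _ => cases hu

theorem rt_un {l : Lab} {u u' : G Nd K} (h : Rt M l u u') (hu : Un u) : Un u' := by
  cases h with
  | pr u z _ => cases hu
  | sB t => cases hu with | s _ h => exact .B _ h
  | Bs t => cases hu with | B _ h => exact h
  | Bz b => exact .c _
  | _ => exact .c _

theorem st_un {l : Lab} {u u' : G Nd K} (h : St M l u u') (hu : Un u) : Un u' := by
  induction h with
  | root a b h => exact rt_un h hu
  | s t t' _ ih => cases hu with | s _ h => exact .s _ (ih h)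
  | B t t' _ ih => cases hu with | B _ h => exact .B _ (ih h)
  | reg => cases hu
  | tail => cases hu

theorem st_ql {l : Lab} {u u' : G Nd K} (h : St M l u u') (hu : Ql u) : Ql u' := by
  induction h with
  | root a b h =>
    cases hu with
    | un _ hu => exact .un _ (rt_un h hu)
    | nd a u z h1 h2 =>
      cases h with
      | pr u z _ => exact .un _ (h1 0)
      | _ => exact .un _ (.c _)
  | s t t' h _ =>
    cases hu with
    | un _ hu => cases hu with | s _ hu => exact .un _ (.s _ (st_un h hu))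
  | B t t' h _ =>
    cases hu with
    | un _ hu => cases hu with | B _ hu => exact .un _ (.B _ (st_un h hu))
  | reg a u z j t' h _ =>
    cases hu with
    | un _ hu => cases hu
    | nd _ _ _ h1 h2 =>
      refine .nd _ _ _ (fun i => ?_) h2
      by_cases hi : i = j
      · subst hi; rw [update_self]; exact st_un h (h1 i)
      · rw [update_of_ne hi]; exact h1 i
  | tail a u z z' _ ih =>
    cases hu with
    | un _ hu => cases hu
    | nd _ _ _ h1 h2 => exact .nd _ _ _ h1 (ih h2)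

/-- no step creates an end of a number -/
theorem lf_z {l : Lab} {u u' : G Nd K} (h : St M l u u') (hu : Un u) (b : Bool) :
    lf u' = .z b → lf u = .z b := by
  induction h with
  | root a b h =>
    intro h2
    cases h with
    | pr u z _ => cases hu
    | sB t => exact h2
    | Bs t => exact h2
    | Bz b => exact h2
    | _ => cases h2
  | s t t' _ ih => cases hu with | s _ h => exact ih h
  | B t t' _ ih => cases hu with | B _ h => exact ih h
  | reg => cases hu
  | tail => cases hu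

theorem eff_cut0 {u u' : G Nd K} (h : St M .cut0 u u') (hu : Un u) :
    (∃ b, lf u = .z b) ∧ lf u' = .k0 0 ∧ ht u' = ht u := by
  induction h with
  | root a b h => cases h with | cut0 b => exact ⟨⟨b, rfl⟩, rfl, rfl⟩
  | s t t' _ ih => cases hu with | s _ h => simpa [lf, ht] using ih h
  | B t t' _ ih => cases hu with | B _ h => simpa [lf, ht] using ih h
  | reg => cases hu
  | tail => cases hu

theorem eff_cut1 {u u' : G Nd K} (h : St M .cut1 u u') (hu : Un u) :
    lf u' = .k1 0 ∧ ht u' < ht u := by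
  induction h with
  | root a b h => cases h with | cut1 t => exact ⟨rfl, by simp [ht]⟩
  | s t t' _ ih => cases hu with | s _ h => simpa [lf, ht] using ih h
  | B t t' _ ih => cases hu with | B _ h => simpa [lf, ht] using ih h
  | reg => cases hu
  | tail => cases hu

theorem eff_m0 {u u' : G Nd K} (h : St M .m0 u u') (hu : Un u) :
    lf u = .k0 0 ∧ lf u' = .mm 0 ∧ ht u' = ht u := by
  induction h with
  | root a b h => cases h with | m0 => exact ⟨rfl, rfl, rfl⟩
  | s t t' _ ih => cases hu with | s _ h => simpa [lf, ht] using ih h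
  | B t t' _ ih => cases hu with | B _ h => simpa [lf, ht] using ih h
  | reg => cases hu
  | tail => cases hu

theorem eff_m1 {u u' : G Nd K} (h : St M .m1 u u') (hu : Un u) :
    lf u = .k1 0 ∧ lf u' = .mm 0 ∧ ht u' = ht u := by
  induction h with
  | root a b h => cases h with | m1 => exact ⟨rfl, rfl, rfl⟩
  | s t t' _ ih => cases hu with | s _ h => simpa [lf, ht] using ih h
  | B t t' _ ih => cases hu with | B _ h => simpa [lf, ht] using ih h
  | reg => cases hu
  | tail => cases hu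

/-- creation of `mm` -/
theorem eff_mm {l : Lab} {u u' : G Nd K} (h : St M l u u') (hu : Un u)
    (h1 : isT .tM (lf u) = false) (h2 : isT .tM (lf u') = true) : l = .m0 ∨ l = .m1 := by
  have h3 := cnt_le h .tM
  rw [cnt_un hu, cnt_un (st_un h hu), h1, h2] at h3
  cases l <;> simp [mk] at h3 ⊢

/-! ### pairs of registers -/

/-- the registers `j` of the nodes number `p` and `p + 1` -/
def pr (j : Fin (K + 1)) : ℕ → G Nd K → Option (Nd × G Nd K × G Nd K)
  | 0, .nd a u (.nd _ v _) => some (a, u j, v j)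
  | p + 1, .nd _ _ z => pr j p z
  | _, _ => none

variable (M) in
/-- at most one of two terms changes -/
def PS (l : Lab) (u v u' v' : G Nd K) : Prop :=
  (u' = u ∧ v' = v) ∨ (St M l u u' ∧ v' = v) ∨ (u' = u ∧ St M l v v')

theorem rt_nd {l : Lab} {t : G Nd K} {a : Nd} {u : Fin (K + 1) → G Nd K} {z : G Nd K}
    (h : Rt M l t (.nd a u z)) : False := by
  generalize h2 : G.nd a u z = w at h
  cases h with
  | pr u' z' h =>
    rw [← h2] at h
    simp [numHd] at h
  | _ => cases h2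

theorem st_nd {l : Lab} {t : G Nd K} {b : Nd} {v' : Fin (K + 1) → G Nd K} {z' : G Nd K}
    (h : St M l t (.nd b v' z')) : ∃ v z, t = .nd b v z ∧ ((∃ i t', St M l (v i) t' ∧
      v' = update v i t' ∧ z' = z) ∨ (v' = v ∧ St M l z z')) := by
  generalize h2 : G.nd b v' z' = w at h
  cases h with
  | root a b h => subst h2; exact (rt_nd h).elim
  | s => cases h2
  | B => cases h2
  | reg a u z j t' h =>
    cases h2
    exact ⟨u, _, rfl, Or.inl ⟨j, t', h, rfl, rfl⟩⟩
  | tail a u z z' h =>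
    cases h2
    exact ⟨_, z, rfl, Or.inr ⟨rfl, h⟩⟩

theorem pr_nd {j : Fin (K + 1)} {p : ℕ} {t : G Nd K} {x : Nd × G Nd K × G Nd K}
    (h : pr j p t = some x) : ∃ a u z, t = .nd a u z := by
  cases t with
  | nd a u z => exact ⟨a, u, z, rfl⟩
  | _ => cases p <;> simp [pr] at h

theorem trk {l : Lab} (j : Fin (K + 1)) : ∀ (p : ℕ) (t t' : G Nd K) (a : Nd)
    (x1' x2' : G Nd K), St M l t t' → pr j p t' = some (a, x1', x2') →
    ∃ x1 x2, pr j p t = some (a, x1, x2) ∧ PS M l x1 x2 x1' x2' := by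
  intro p
  induction p with
  | zero =>
    intro t t' a x1' x2' h hp
    obtain ⟨a', u', z', rfl⟩ := pr_nd hp
    cases z' with
    | nd b v' w' =>
      simp only [pr, Option.some.injEq, Prod.mk.injEq] at hp
      obtain ⟨rfl, rfl, rfl⟩ := hp
      obtain ⟨u, z, rfl, h1 | h1⟩ := st_nd h
      · obtain ⟨i, t', h1, rfl, rfl⟩ := h1
        refine ⟨u j, v' j, rfl, ?_⟩
        by_cases hj : j = i
        · subst hj
          rw [update_self]
          exact Or.inr (Or.inl ⟨h1, rfl⟩)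
        · rw [update_of_ne hj]
          exact Or.inl ⟨rfl, rfl⟩
      · obtain ⟨rfl, h1⟩ := h1
        obtain ⟨v, w, rfl, h2 | h2⟩ := st_nd h1
        · obtain ⟨i, t', h2, rfl, rfl⟩ := h2
          refine ⟨u' j, v j, rfl, ?_⟩
          by_cases hj : j = i
          · subst hj
            rw [update_self]
            exact Or.inr (Or.inr ⟨rfl, h2⟩)
          · rw [update_of_ne hj]
            exact Or.inl ⟨rfl, rfl⟩
        · obtain ⟨rfl, h2⟩ := h2
          exact ⟨u' j, v' j, rfl, Or.inl ⟨rfl, rfl⟩⟩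
    | _ => simp [pr] at hp
  | succ p ih =>
    intro t t' a x1' x2' h hp
    obtain ⟨a', u', z', rfl⟩ := pr_nd hp
    simp only [pr] at hp
    obtain ⟨u, z, rfl, h1 | h1⟩ := st_nd h
    · obtain ⟨i, t', h1, rfl, rfl⟩ := h1
      exact ⟨x1', x2', hp, Or.inl ⟨rfl, rfl⟩⟩
    · exact ih z z' a x1' x2' h1.2 hp

theorem pr_cnt (T : Ty) (j : Fin (K + 1)) : ∀ (p : ℕ) (t : G Nd K) (a : Nd) (x1 x2 : G Nd K),
    pr j p t = some (a, x1, x2) → cnt T x1 + cnt T x2 ≤ cnt T t := by
  intro p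
  induction p with
  | zero =>
    intro t a x1 x2 h
    obtain ⟨a', u, z, rfl⟩ := pr_nd h
    cases z with
    | nd b v w =>
      simp only [pr, Option.some.injEq, Prod.mk.injEq] at h
      obtain ⟨rfl, rfl, rfl⟩ := h
      have h1 := cnt_reg_le T a' u (.nd b v w) j
      have h2 := cnt_reg_le T b v w j
      omega
    | _ => simp [pr] at h
  | succ p ih =>
    intro t a x1 x2 h
    obtain ⟨a', u, z, rfl⟩ := pr_nd h
    simp only [pr] at h
    have h1 := ih z a x1 x2 h
    rw [cnt_nd]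
    omega

theorem pr_un (j : Fin (K + 1)) : ∀ (p : ℕ) (t : G Nd K) (a : Nd) (x1 x2 : G Nd K), Ql t →
    pr j p t = some (a, x1, x2) → Un x1 ∧ Un x2 := by
  intro p
  induction p with
  | zero =>
    intro t a x1 x2 hq h
    obtain ⟨a', u, z, rfl⟩ := pr_nd h
    cases z with
    | nd b v w =>
      simp only [pr, Option.some.injEq, Prod.mk.injEq] at h
      obtain ⟨rfl, rfl, rfl⟩ := h
      cases hq with
      | un _ h => cases h
      | nd _ _ _ h1 h2 =>
        cases h2 with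
        | un _ h => cases h
        | nd _ _ _ h3 _ => exact ⟨h1 j, h3 j⟩
    | _ => simp [pr] at h
  | succ p ih =>
    intro t a x1 x2 hq h
    obtain ⟨a', u, z, rfl⟩ := pr_nd h
    simp only [pr] at h
    cases hq with
    | un _ h => cases h
    | nd _ _ _ h1 h2 => exact ih z a x1 x2 h2 h

variable (M) in
/-- a match of the final rule -/
def FM (t : G Nd K) : Prop := ∃ j p a x1 x2 X, pr j p t = some (a, x1, x2) ∧
  x1 = sh (M.al a j) X ∧ x2 = sh (M.be a j) X

theorem fm_of_fin {t t' : G Nd K} (h : St M .fin t t') (hq : Ql t) : FM M t := by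
  have hun : ∀ {u u' : G Nd K}, St M .fin u u' → Un u → False := by
    intro u u' h
    induction h with
    | root a b h => intro hu; cases h; cases hu
    | s t t' _ ih => intro hu; cases hu with | s _ h => exact ih h
    | B t t' _ ih => intro hu; cases hu with | B _ h => exact ih h
    | reg => intro hu; cases hu
    | tail => intro hu; cases hu
  induction h with
  | root a b h =>
    cases h with
    | fin a u b v z j X h1 h2 => exact ⟨j, 0, a, u j, v j, X, rfl, h1, h2⟩
  | s t t' h _ => cases hq with | un _ h' => cases h' with | s _ h' => exact (hun h h').elim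
  | B t t' h _ => cases hq with | un _ h' => cases h' with | B _ h' => exact (hun h h').elim
  | reg a u z j t' h _ =>
    cases hq with
    | un _ h' => cases h'
    | nd _ _ _ h1 _ => exact (hun h (h1 j)).elim
  | tail a u z z' _ ih =>
    cases hq with
    | un _ h' => cases h'
    | nd _ _ _ _ h2 =>
      obtain ⟨j, p, a', x1, x2, X, h3, h4⟩ := ih h2
      exact ⟨j, p + 1, a', x1, x2, X, h3, h4⟩

theorem lf_sh (b : Bool) (X : G Nd K) : lf (sh b X) = lf X := by cases b <;> rfl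

theorem ht_sh (b : Bool) (X : G Nd K) : ht (sh b X) = ht X + b.toNat := by cases b <;> rfl

/-- the state of a register in the chain of steps -/
def Iv (k : ℕ) (b : Bool) (w : G Nd K) : Prop :=
  (lf w = .z b ∧ ht w = k) ∨ (lf w = .k0 0 ∧ ht w = k) ∨ (lf w = .k1 0 ∧ ht w < k) ∨
    (lf w = .mm 0 ∧ ht w = k)

/-- weak form -/
def Iw (w : G Nd K) : Prop := (∃ b, lf w = .z b) ∨ lf w = .k0 0 ∨ lf w = .k1 0 ∨ lf w = .mm 0

theorem Iv.iw {k : ℕ} {b : Bool} {w : G Nd K} (h : Iv k b w) : Iw w := by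
  rcases h with h | h | h | h
  · exact Or.inl ⟨b, h.1⟩
  · exact Or.inr (Or.inl h.1)
  · exact Or.inr (Or.inr (Or.inl h.1))
  · exact Or.inr (Or.inr (Or.inr h.1))

theorem Iv.st {l : Lab} {k : ℕ} {b : Bool} {w w' : G Nd K} (h : Iv k b w) (hu : Un w)
    (hs : St M l w w') (hl : l = .cut0 ∨ l = .cut1 ∨ l = .m0) : Iv k b w' := by
  rcases hl with rfl | rfl | rfl
  · obtain ⟨⟨b', h1⟩, h2, h3⟩ := eff_cut0 hs hu
    rcases h with h | h | h | h
    · exact Or.inr (Or.inl ⟨h2, by omega⟩)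
    · rw [h.1] at h1; cases h1
    · rw [h.1] at h1; cases h1
    · rw [h.1] at h1; cases h1
  · obtain ⟨h2, h3⟩ := eff_cut1 hs hu
    refine Or.inr (Or.inr (Or.inl ⟨h2, ?_⟩))
    rcases h with h | h | h | h <;> omega
  · obtain ⟨h1, h2, h3⟩ := eff_m0 hs hu
    rcases h with h | h | h | h
    · rw [h.1] at h1; cases h1
    · exact Or.inr (Or.inr (Or.inr ⟨h2, by omega⟩))
    · rw [h.1] at h1; cases h1
    · rw [h.1] at h1; cases h1

theorem Iw.st {w w' : G Nd K} (hu : Un w)
    (hs : St M .m1 w w') : Iw w' := by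
  obtain ⟨h1, h2, h3⟩ := eff_m1 hs hu
  exact Or.inr (Or.inr (Or.inr h2))

variable (M) in
/-- the pairs of a term satisfy the strong invariant -/
def P1 (t : G Nd K) : Prop := ∀ j p a x1 x2, pr j p t = some (a, x1, x2) → ∃ b k1 k2,
  ((M.al a j).toNat ≤ k1 → k1 + (M.be a j).toNat = k2 + (M.al a j).toNat) ∧
    Iv k1 b x1 ∧ Iv k2 (!b) x2

/-- the pairs of a term satisfy the weak invariant -/
def P2 (t : G Nd K) : Prop := ∀ j p a x1 x2, pr j p t = some (a, x1, x2) → Iw x1 ∧ Iw x2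

theorem P1.st {l : Lab} {t t' : G Nd K} (h : P1 M t) (hq : Ql t) (hs : St M l t t')
    (hl : l = .cut0 ∨ l = .cut1 ∨ l = .m0) : P1 M t' := by
  intro j p a x1' x2' hp
  obtain ⟨x1, x2, hp1, h1⟩ := trk j p t t' a x1' x2' hs hp
  obtain ⟨b, k1, k2, h2, h3, h4⟩ := h j p a x1 x2 hp1
  obtain ⟨h5, h6⟩ := pr_un j p t a x1 x2 hq hp1
  refine ⟨b, k1, k2, h2, ?_⟩
  rcases h1 with ⟨rfl, rfl⟩ | ⟨h1, rfl⟩ | ⟨rfl, h1⟩
  · exact ⟨h3, h4⟩
  · exact ⟨h3.st h5 h1 hl, h4⟩
  · exact ⟨h3, h4.st h6 h1 hl⟩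

theorem P2.st {t t' : G Nd K} (h : P2 t) (hq : Ql t) (hs : St M .m1 t t') : P2 t' := by
  intro j p a x1' x2' hp
  obtain ⟨x1, x2, hp1, h1⟩ := trk j p t t' a x1' x2' hs hp
  obtain ⟨h3, h4⟩ := h j p a x1 x2 hp1
  obtain ⟨h5, h6⟩ := pr_un j p t a x1 x2 hq hp1
  rcases h1 with ⟨rfl, rfl⟩ | ⟨h1, rfl⟩ | ⟨rfl, h1⟩
  · exact ⟨h3, h4⟩
  · exact ⟨Iw.st h5 h1, h4⟩
  · exact ⟨h3, Iw.st h6 h1⟩

theorem P1.p2 {t : G Nd K} (h : P1 M t) : P2 t := by
  intro j p a x1 x2 hp
  obtain ⟨b, k1, k2, -, h3, h4⟩ := h j p a x1 x2 hp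
  exact ⟨h3.iw, h4.iw⟩

/-- no match of the final rule -/
theorem P1.nfm {t : G Nd K} (h : P1 M t) (hq : Ql t) (h0 : cnt .t0 t ≤ 1) (h1 : cnt .t1 t ≤ 1)
    (hM : cnt .tM t ≤ 1) : ¬ FM M t := by
  rintro ⟨j, p, a, x1, x2, X, hp, e1, e2⟩
  obtain ⟨b, k1, k2, -, h3, h4⟩ := h j p a x1 x2 hp
  obtain ⟨u1, u2⟩ := pr_un j p t a x1 x2 hq hp
  have c0 := pr_cnt .t0 j p t a x1 x2 hp
  have c1 := pr_cnt .t1 j p t a x1 x2 hp
  have cM := pr_cnt .tM j p t a x1 x2 hp
  rw [cnt_un u1, cnt_un u2] at c0 c1 cM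
  have el : lf x1 = lf x2 := by rw [e1, e2, lf_sh, lf_sh]
  rw [← el] at c0 c1 cM
  rcases h3 with h3 | h3 | h3 | h3
  · rcases h4 with h4 | h4 | h4 | h4 <;> rw [← el, h3.1] at h4 <;> simp at h4
  · rw [h3.1] at c0; simp [isT] at c0; omega
  · rw [h3.1] at c1; simp [isT] at c1; omega
  · rw [h3.1] at cM; simp [isT] at cM; omega

/-! ### the chain -/

variable (M) in
/-- a detected error -/
def Err (x : G Nd K) : Prop := ∃ y1, Ss M x y1 ∧ ∃ y2, Ss M y1 y2 ∧ Cl M 6 y2 ∧ Cl M 7 y2 ∧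
  ∃ y3, Ss M y2 y3 ∧ Cl M 8 y3 ∧ Cl M 7 y3 ∧ ∃ y3', Ss M y2 y3' ∧ Cl M 8 y3' ∧ Cl M 6 y3' ∧
  ∃ y4, Ss M y3 y4 ∧ Ss M y3' y4 ∧ ∃ y5, Ss M y4 y5 ∧ Ss M y5 y5

variable (M) in
/-- a detected pattern -/
def Grb (x : G Nd K) : Prop := ∃ y, Ss M x y ∧ Cl M 5 y

/-- the pairs of a correct term -/
def P0 (M : AM Nd K) (t : G Nd K) : Prop := ∀ j p a x1 x2, pr j p t = some (a, x1, x2) →
  ∃ b k1 k2, ((M.al a j).toNat ≤ k1 → k1 + (M.be a j).toNat = k2 + (M.al a j).toNat) ∧
    (lf x1 = .z b ∧ ht x1 = k1) ∧ (lf x2 = .z (!b) ∧ ht x2 = k2)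

theorem P0.p1 {t : G Nd K} (h : P0 M t) : P1 M t := by
  intro j p a x1 x2 hp
  obtain ⟨b, k1, k2, h1, h2, h3⟩ := h j p a x1 x2 hp
  exact ⟨b, k1, k2, h1, Or.inl h2, Or.inl h3⟩

/-- no match after one step -/
theorem P0.nfm1 {l : Lab} {t t' : G Nd K} (h : P0 M t) (hq : Ql t) (hs : St M l t t') :
    ¬ FM M t' := by
  rintro ⟨j, p, a, x1', x2', X, hp, e1, e2⟩
  obtain ⟨x1, x2, hp1, h1⟩ := trk j p t t' a x1' x2' hs hp
  obtain ⟨b, k1, k2, -, h3, h4⟩ := h j p a x1 x2 hp1
  obtain ⟨u1, u2⟩ := pr_un j p t a x1 x2 hq hp1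
  have el : lf x1' = lf x2' := by rw [e1, e2, lf_sh, lf_sh]
  rcases h1 with ⟨rfl, rfl⟩ | ⟨h1, rfl⟩ | ⟨rfl, h1⟩
  · rw [h3.1, h4.1] at el; simp at el
  · rw [h4.1] at el
    have := lf_z h1 u1 _ el
    rw [h3.1] at this
    simp at this
  · rw [h3.1] at el
    have := lf_z h1 u2 _ el.symm
    rw [h4.1] at this
    simp at this

theorem not_err {x : G Nd K} (hq : Ql x) (hc : ∀ T, cnt T x = 0) (hp : P0 M x) : ¬ Err M x := by
  rintro ⟨y1, ⟨l1, s1⟩, y2, ⟨l2, s2⟩, c26, c27, y3, ⟨l3, s3⟩, c38, c37, y3', ⟨l3', s3'⟩, c38',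
    c36', y4, ⟨l4, s4⟩, ⟨l4', s4'⟩, y5, ⟨l5, s5⟩, s6⟩
  have q1 := st_ql s1 hq
  have q2 := st_ql s2 q1
  have q3 := st_ql s3 q2
  have q3' := st_ql s3' q2
  have q4 := st_ql s4 q3
  -- no match in `x`
  have n0 : ¬ FM M x := hp.p1.nfm hq (by rw [hc]; omega) (by rw [hc]; omega) (by rw [hc]; omega)
  have f1 : l1 ≠ .fin := fun e => n0 (fm_of_fin (by rw [← e]; exact s1) hq)
  have E1 : cnt .tE y1 = 0 := by
    have := cnt_le s1 .tE
    rw [hc] at this
    cases l1 <;> simp [mk] at this f1 <;> exact this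
  have n1 : ¬ FM M y1 := hp.nfm1 hq s1
  have f2 : l2 ≠ .fin := fun e => n1 (fm_of_fin (by rw [← e]; exact s2) q1)
  have E2 : cnt .tE y2 = 0 := by
    have := cnt_le s2 .tE
    rw [E1] at this
    cases l2 <;> simp [mk] at this f2 <;> exact this
  have a26 := cl6 c26 E2
  have a27 := cl7 c27 E2
  have b10 := cnt_le s1 .t0
  have b11 := cnt_le s1 .t1
  have b1M := cnt_le s1 .tM
  have b20 := cnt_le s2 .t0
  have b21 := cnt_le s2 .t1
  have b2M := cnt_le s2 .tM
  rw [hc] at b10 b11 b1M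
  have hl : (l1 = .cut0 ∧ l2 = .cut1) ∨ (l1 = .cut1 ∧ l2 = .cut0) := by
    cases l1 <;> simp [mk] at b10 b11 <;> cases l2 <;> simp [mk] at b20 b21 ⊢ <;> omega
  have hl1 : l1 = .cut0 ∨ l1 = .cut1 ∨ l1 = .m0 := by
    rcases hl with h | h
    · exact Or.inl h.1
    · exact Or.inr (Or.inl h.1)
  have hl2 : l2 = .cut0 ∨ l2 = .cut1 ∨ l2 = .m0 := by
    rcases hl with h | h
    · exact Or.inr (Or.inl h.2)
    · exact Or.inl h.2
  have k20 : cnt .t0 y2 ≤ 1 := by
    rcases hl with ⟨rfl, rfl⟩ | ⟨rfl, rfl⟩ <;> simp [mk] at b10 b20 <;> omega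
  have k21 : cnt .t1 y2 ≤ 1 := by
    rcases hl with ⟨rfl, rfl⟩ | ⟨rfl, rfl⟩ <;> simp [mk] at b11 b21 <;> omega
  have k2M : cnt .tM y2 = 0 := by
    rcases hl with ⟨rfl, rfl⟩ | ⟨rfl, rfl⟩ <;> simp [mk] at b1M b2M <;> omega
  have p1 : P1 M y1 := hp.p1.st hq s1 hl1
  have p2 : P1 M y2 := p1.st q1 s2 hl2
  have n2 : ¬ FM M y2 := p2.nfm q2 k20 k21 (by omega)
  have f3 : l3 ≠ .fin := fun e => n2 (fm_of_fin (by rw [← e]; exact s3) q2)
  have f3' : l3' ≠ .fin := fun e => n2 (fm_of_fin (by rw [← e]; exact s3') q2)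
  have E3 : cnt .tE y3 = 0 := by
    have := cnt_le s3 .tE
    rw [E2] at this
    cases l3 <;> simp [mk] at this f3 <;> exact this
  have E3' : cnt .tE y3' = 0 := by
    have := cnt_le s3' .tE
    rw [E2] at this
    cases l3' <;> simp [mk] at this f3' <;> exact this
  have a38 := cl8 c38 E3
  have a37 := cl7 c37 E3
  have a38' := cl8 c38' E3'
  have a36' := cl6 c36' E3'
  have b3M := cnt_le s3 .tM
  have b3M' := cnt_le s3' .tM
  rw [k2M] at b3M b3M'
  have e3 : l3 = .m0 := by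
    have h : l3 = .m0 ∨ l3 = .m1 := by
      cases l3 <;> simp [mk] at b3M ⊢ <;> omega
    rcases h with h | rfl
    · exact h
    · have := cnt_m1 s3; omega
  have e3' : l3' = .m1 := by
    have h : l3' = .m0 ∨ l3' = .m1 := by
      cases l3' <;> simp [mk] at b3M' ⊢ <;> omega
    rcases h with rfl | h
    · have := cnt_m0 s3'; omega
    · exact h
  subst e3 e3'
  have k30 : cnt .t0 y3 = 0 := by have := cnt_m0 s3; omega
  have k31' : cnt .t1 y3' = 0 := by have := cnt_m1 s3'; omega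
  have k31 : cnt .t1 y3 ≤ 1 := by have := cnt_le s3 .t1; simp [mk] at this; omega
  have k3M : cnt .tM y3 ≤ 1 := by simpa [mk] using b3M
  have p3 : P1 M y3 := p2.st q2 s3 (by simp)
  have p3' : P2 y3' := p2.p2.st q2 s3'
  have n3 : ¬ FM M y3 := p3.nfm q3 (by omega) k31 k3M
  have f4 : l4 ≠ .fin := fun e => n3 (fm_of_fin (by rw [← e]; exact s4) q3)
  have E4 : cnt .tE y4 = 0 := by
    have := cnt_le s4 .tE
    rw [E3] at this
    cases l4 <;> simp [mk] at this f4 <;> exact this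
  -- the last step
  have a5 := cl1 s6
  have e5 : l5 = .fin := by
    have := cnt_le s5 .tE
    rw [E4] at this
    cases l5 <;> simp [mk] at this ⊢ <;> omega
  subst e5
  obtain ⟨j, p, a, u4, v4, X, hp4, g1, g2⟩ := fm_of_fin s5 q4
  obtain ⟨u3, v3, hp3, t3⟩ := trk j p y3 y4 a u4 v4 s4 hp4
  obtain ⟨u3', v3', hp3', t3'⟩ := trk j p y3' y4 a u4 v4 s4' hp4
  obtain ⟨b, k1, k2, hr, i1, i2⟩ := p3 j p a u3 v3 hp3
  obtain ⟨i1', i2'⟩ := p3' j p a u3' v3' hp3'
  obtain ⟨w1, w2⟩ := pr_un j p y3 a u3 v3 q3 hp3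
  obtain ⟨w1', w2'⟩ := pr_un j p y3' a u3' v3' q3' hp3'
  have el : lf u4 = lf v4 := by rw [g1, g2, lf_sh, lf_sh]
  have h1 : ht u4 = ht X + (M.al a j).toNat := by rw [g1, ht_sh]
  have h2 : ht v4 = ht X + (M.be a j).toNat := by rw [g2, ht_sh]
  -- the leaf is not an end of a number
  have nz : ∀ d, lf u4 ≠ .z d := by
    intro d hd
    have z1 : lf u3 = .z d := by
      rcases t3 with ⟨rfl, rfl⟩ | ⟨t3, rfl⟩ | ⟨rfl, t3⟩
      · exact hd
      · exact lf_z t3 w1 d hd
      · exact hd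
    have z2 : lf v3 = .z d := by
      rw [el] at hd
      rcases t3 with ⟨rfl, rfl⟩ | ⟨t3, rfl⟩ | ⟨rfl, t3⟩
      · exact hd
      · exact hd
      · exact lf_z t3 w2 d hd
    have y1 : d = b := by
      rcases i1 with h | h | h | h <;> rw [z1] at h
      · exact Cst.z.inj h.1
      · cases h.1
      · cases h.1
      · cases h.1
    have y2 : d = !b := by
      rcases i2 with h | h | h | h <;> rw [z2] at h
      · exact Cst.z.inj h.1
      · cases h.1
      · cases h.1
      · cases h.1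
    rw [y1] at y2
    simp at y2
  -- counts in `y3` and `y3'`
  have c0 := pr_cnt .t0 j p y3 a u3 v3 hp3
  have c1 := pr_cnt .t1 j p y3 a u3 v3 hp3
  have cM := pr_cnt .tM j p y3 a u3 v3 hp3
  rw [cnt_un w1, cnt_un w2] at c0 c1 cM
  have d1 := pr_cnt .t1 j p y3' a u3' v3' hp3'
  rw [cnt_un w1', cnt_un w2', k31'] at d1
  rw [k30] at c0
  -- the leaf is `k0` or `mm`
  have r2 : lf u4 = .k0 0 ∨ lf u4 = .mm 0 := by
    have key : ∀ w : G Nd K, Iw w → lf w = lf u4 → isT .t1 (lf w) = false →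
        lf u4 = .k0 0 ∨ lf u4 = .mm 0 := by
      intro w hw e h
      rcases hw with ⟨d, h'⟩ | h' | h' | h'
      · exact absurd (e.symm.trans h') (nz d)
      · exact Or.inl (e.symm.trans h')
      · rw [h'] at h; simp [isT] at h
      · exact Or.inr (e.symm.trans h')
    rcases t3' with ⟨rfl, rfl⟩ | ⟨t, rfl⟩ | ⟨rfl, t⟩
    · refine key u4 i1' rfl ?_
      by_contra hh
      simp only [Bool.not_eq_false] at hh
      simp [hh] at d1
    · refine key v4 i2' el.symm ?_
      by_contra hh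
      simp only [Bool.not_eq_false] at hh
      simp [hh] at d1
    · refine key u4 i1' rfl ?_
      by_contra hh
      simp only [Bool.not_eq_false] at hh
      simp [hh] at d1
  -- conclusion
  rcases t3 with ⟨rfl, rfl⟩ | ⟨t3, rfl⟩ | ⟨rfl, t3⟩
  · rw [← el] at c0 c1 cM
    rcases r2 with h | h <;> rw [h] at c0 cM <;> simp [isT] at c0 cM
    omega
  · rw [← el] at c0 c1 cM
    rcases r2 with h | h
    · rw [h] at c0; simp [isT] at c0
    · rw [h] at cM
      rw [show isT .tM (.mm 0) = true from rfl] at cM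
      simp only [if_true] at cM
      have hn : isT .tM (lf u3) = false := by
        by_contra hh
        simp only [Bool.not_eq_false] at hh
        rw [hh] at cM
        simp at cM
        omega
      have hh2 : ht v4 = k2 := by
        rcases i2 with i | i | i | i
        · exact i.2
        · exact i.2
        · rw [← el, h] at i; cases i.1
        · exact i.2
      rcases eff_mm t3 w1 hn (by rw [h]; rfl) with rfl | rfl
      · obtain ⟨x1, -, -⟩ := eff_m0 t3 w1
        rw [x1] at c0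
        simp [isT] at c0
      · obtain ⟨x1, -, x3⟩ := eff_m1 t3 w1
        have : ht u3 < k1 := by
          rcases i1 with i | i | i | i
          · rw [x1] at i; cases i.1
          · rw [x1] at i; cases i.1
          · exact i.2
          · rw [x1] at i; cases i.1
        have := hr (by omega)
        omega
  · rcases r2 with h | h
    · rw [h] at c0; simp [isT] at c0
    · rw [h] at cM
      rw [show isT .tM (.mm 0) = true from rfl] at cM
      simp only [if_true] at cM
      have hn : isT .tM (lf v3) = false := by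
        by_contra hh
        simp only [Bool.not_eq_false] at hh
        rw [hh] at cM
        simp at cM
        omega
      have hh2 : ht u4 = k1 := by
        rcases i1 with i | i | i | i
        · exact i.2
        · exact i.2
        · rw [h] at i; cases i.1
        · exact i.2
      rcases eff_mm t3 w2 hn (by rw [← el, h]; rfl) with rfl | rfl
      · obtain ⟨x1, -, -⟩ := eff_m0 t3 w2
        rw [x1] at c0
        simp [isT] at c0
      · obtain ⟨x1, -, x3⟩ := eff_m1 t3 w2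
        have : ht v3 < k2 := by
          rcases i2 with i | i | i | i
          · rw [x1] at i; cases i.1
          · rw [x1] at i; cases i.1
          · exact i.2
          · rw [x1] at i; cases i.1
        have := hr (by omega)
        omega

theorem not_grb {x : G Nd K} (hq : Ql x) (hc : ∀ T, cnt T x = 0) (hp : P0 M x)
    (hg : ∀ t, ¬ St M .garb x t) : ¬ Grb M x := by
  rintro ⟨y, ⟨l, s⟩, c⟩
  have n0 : ¬ FM M x := hp.p1.nfm hq (by rw [hc]; omega) (by rw [hc]; omega) (by rw [hc]; omega)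
  have f1 : l ≠ .fin := fun e => n0 (fm_of_fin (by rw [← e]; exact s) hq)
  have f2 : l ≠ .garb := fun e => hg y (by rw [← e]; exact s)
  have E1 : cnt .tE y = 0 := by
    have := cnt_le s .tE
    rw [hc] at this
    cases l <;> simp [mk] at this f1 <;> exact this
  have O1 : cnt .tO y = 0 := by
    have := cnt_le s .tO
    rw [hc] at this
    cases l <;> simp [mk] at this f2 <;> exact this
  have := cl5 c E1
  omega

end Pool.Agent.X238.Osr
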