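import Pool.Agent.X238.Osr.Mach

set_option autoImplicit false

/-!
# The rewrite system, on a concrete type of terms
-/

namespace Pool.Agent.X238.Osr

open Function

/-- constants: the two ends of numbers, the end of lists, the sign of an error, four cycles, a
chain -/
inductive Cst : Type
  | z (b : Bool)
  | nil
  | E
  | om (i : ZMod 5)
  | k0 (i : ZMod 6)
  | k1 (i : ZMod 7)
  | mm (i : ZMod 8)
  | ch (i : Fin 7)

/-- ground terms -/
inductive G (Nd : Type) (K : ℕ) : Type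
  | c (x : Cst) : G Nd K
  | s (t : G Nd K) : G Nd K
  | B (t : G Nd K) : G Nd K
  | nd (a : Nd) (u : Fin (K + 1) → G Nd K) (z : G Nd K) : G Nd K

/-- labels of steps -/
inductive Lab : Type
  | cut0 | cut1 | m0 | m1 | fin | garb | cE | cO | c0 | c1 | cM | oth

variable {Nd : Type} {K : ℕ}

/-- the term begins like a number -/
def numHd : G Nd K → Bool
  | .s _ => true
  | .c (.z _) => true
  | _ => false

/-- the term is an end of a number -/
def isZ : G Nd K → Bool
  | .c (.z _) => true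
  | _ => false

/-- shift -/
def sh : Bool → G Nd K → G Nd K
  | false, t => t
  | true, t => .s t

variable (M : AM Nd K)

/-- shift in the first register -/
def AM.al (a : Nd) (j : Fin (K + 1)) : Bool := match M.op a with
  | .dec => decide (j = M.q a)
  | _ => false

/-- shift in the second register -/
def AM.be (a : Nd) (j : Fin (K + 1)) : Bool := match M.op a with
  | .inc => decide (j = M.q a)
  | _ => false

/-- garbage patterns -/
inductive Gp : G Nd K → Prop
  | s (t : G Nd K) : numHd t = false → Gp (.s t)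
  | reg (a : Nd) (u : Fin (K + 1) → G Nd K) (z : G Nd K) (j : Fin (K + 1)) :
      numHd (u j) = false → Gp (.nd a u z)
  | hl (a : Nd) (u : Fin (K + 1) → G Nd K) (z : G Nd K) : M.hl a = true → z ≠ .c .nil →
      Gp (.nd a u z)
  | tl (a : Nd) (u : Fin (K + 1) → G Nd K) (z : G Nd K) : M.hl a = false →
      (∀ b v z', z ≠ .nd b v z') → Gp (.nd a u z)
  | nx (a : Nd) (u : Fin (K + 1) → G Nd K) (b : Nd) (v : Fin (K + 1) → G Nd K) (z : G Nd K) :
      M.hl a = false → numHd (u (M.q a)) = true → b ≠ M.nx a (isZ (u (M.q a))) →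
      Gp (.nd a u (.nd b v z))
  | inc (a : Nd) (u : Fin (K + 1) → G Nd K) (b : Nd) (v : Fin (K + 1) → G Nd K) (z : G Nd K)
      (d : Bool) : M.op a = .inc → v (M.q a) = .c (.z d) → Gp (.nd a u (.nd b v z))
  | dec (a : Nd) (u : Fin (K + 1) → G Nd K) (b : Nd) (v : Fin (K + 1) → G Nd K) (z : G Nd K)
      (d : Bool) (t : G Nd K) : M.op a = .dec → u (M.q a) = .c (.z d) → v (M.q a) = .s t →
      Gp (.nd a u (.nd b v z))
  | st (u : Fin (K + 1) → G Nd K) (z : G Nd K) (j : Fin (K + 1)) (t : G Nd K) : j ≠ 0 →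
      u j = .s t → Gp (.nd M.st u z)

/-- the terms with the rule `t → ch 5` -/
def colr : G Nd K → Prop
  | .c (.ch _) => False
  | .nd a _ _ => a ≠ M.st
  | _ => True

/-- instances of rules -/
inductive Rt : Lab → G Nd K → G Nd K → Prop
  | cut0 (b : Bool) : Rt .cut0 (.c (.z b)) (.c (.k0 0))
  | cut1 (t : G Nd K) : Rt .cut1 (.s t) (.c (.k1 0))
  | m0 : Rt .m0 (.c (.k0 0)) (.c (.mm 0))
  | m1 : Rt .m1 (.c (.k1 0)) (.c (.mm 0))
  | cE : Rt .cE (.c .E) (.c .E)
  | cO (i : ZMod 5) : Rt .cO (.c (.om i)) (.c (.om (i + 1)))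
  | c0 (i : ZMod 6) : Rt .c0 (.c (.k0 i)) (.c (.k0 (i + 1)))
  | c1 (i : ZMod 7) : Rt .c1 (.c (.k1 i)) (.c (.k1 (i + 1)))
  | cM (i : ZMod 8) : Rt .cM (.c (.mm i)) (.c (.mm (i + 1)))
  | fin (a : Nd) (u : Fin (K + 1) → G Nd K) (b : Nd) (v : Fin (K + 1) → G Nd K) (z : G Nd K)
      (j : Fin (K + 1)) (X : G Nd K) : u j = sh (M.al a j) X → v j = sh (M.be a j) X →
      Rt .fin (.nd a u (.nd b v z)) (.c .E)
  | garb (t : G Nd K) : Gp M t → Rt .garb t (.c (.om 0))
  | sB (t : G Nd K) : Rt .oth (.s t) (.B t)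
  | Bs (t : G Nd K) : Rt .oth (.B (.s t)) (.s t)
  | Bz (b : Bool) : Rt .oth (.B (.c (.z b))) (.c (.z b))
  | pr (u : Fin (K + 1) → G Nd K) (z : G Nd K) : numHd (u 0) = true →
      Rt .oth (.nd M.st u z) (u 0)
  | ns (t : G Nd K) : Rt .oth (.s t) (.c (.ch 1))
  | nz (b : Bool) : Rt .oth (.c (.z b)) (.c (.ch 1))
  | zz (b : Bool) : Rt .oth (.c (.z b)) (.c (.ch 0))
  | bb (t : G Nd K) : Rt .oth (.B t) (.c (.ch 3))
  | col (t : G Nd K) : colr M t → Rt .oth t (.c (.ch 5))
  | cst (u : Fin (K + 1) → G Nd K) (z : G Nd K) : Rt .oth (.nd M.st u z) (.c (.ch 6))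
  | chn (i : Fin 6) : Rt .oth (.c (.ch i.succ)) (.c (.ch i.castSucc))

/-- steps -/
inductive St (l : Lab) : G Nd K → G Nd K → Prop
  | root (a b : G Nd K) : Rt M l a b → St l a b
  | s (t t' : G Nd K) : St l t t' → St l (.s t) (.s t')
  | B (t t' : G Nd K) : St l t t' → St l (.B t) (.B t')
  | reg (a : Nd) (u : Fin (K + 1) → G Nd K) (z : G Nd K) (j : Fin (K + 1)) (t' : G Nd K) :
      St l (u j) t' → St l (.nd a u z) (.nd a (update u j t') z)
  | tail (a : Nd) (u : Fin (K + 1) → G Nd K) (z z' : G Nd K) : St l z z' →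
      St l (.nd a u z) (.nd a u z')

/-- one-step rewriting -/
def Ss (t t' : G Nd K) : Prop := ∃ l, St M l t t'

/-! ### weights -/

section wt

variable {A : Type} [AddCommMonoid A]

/-- weights -/
def wt (fc : Cst → A) (fs fB fn : A) : G Nd K → A
  | .c x => fc x
  | .s t => fs + wt fc fs fB fn t
  | .B t => fB + wt fc fs fB fn t
  | .nd _ u z => fn + ((∑ j, wt fc fs fB fn (u j)) + wt fc fs fB fn z)

end wt

variable {M}

theorem ctx {l : Lab} {t t' : G Nd K} (h : St M l t t') : ∃ a b, Rt M l a b ∧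
    ∀ (A : Type) [AddCommMonoid A] (fc : Cst → A) (fs fB fn : A), ∃ r : A,
      wt fc fs fB fn t = wt fc fs fB fn a + r ∧ wt fc fs fB fn t' = wt fc fs fB fn b + r := by
  induction h with
  | root a b h => exact ⟨a, b, h, fun A _ fc fs fB fn => ⟨0, by simp, by simp⟩⟩
  | s t t' _ ih =>
    obtain ⟨a, b, h, ih⟩ := ih
    refine ⟨a, b, h, fun A _ fc fs fB fn => ?_⟩
    obtain ⟨r, h1, h2⟩ := ih A fc fs fB fn
    exact ⟨fs + r, by rw [wt, h1, add_left_comm], by rw [wt, h2, add_left_comm]⟩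
  | B t t' _ ih =>
    obtain ⟨a, b, h, ih⟩ := ih
    refine ⟨a, b, h, fun A _ fc fs fB fn => ?_⟩
    obtain ⟨r, h1, h2⟩ := ih A fc fs fB fn
    exact ⟨fB + r, by rw [wt, h1, add_left_comm], by rw [wt, h2, add_left_comm]⟩
  | reg n u z j t' _ ih =>
    obtain ⟨a, b, h, ih⟩ := ih
    refine ⟨a, b, h, fun A _ fc fs fB fn => ?_⟩
    obtain ⟨r, h1, h2⟩ := ih A fc fs fB fn
    have e1 : (∑ i, wt fc fs fB fn (u i)) = wt fc fs fB fn (u j) +
        ∑ i ∈ Finset.univ.erase j, wt fc fs fB fn (u i) :=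
      (Finset.add_sum_erase _ _ (Finset.mem_univ j)).symm
    have e2 : (∑ i, wt fc fs fB fn (update u j t' i)) = wt fc fs fB fn t' +
        ∑ i ∈ Finset.univ.erase j, wt fc fs fB fn (u i) := by
      rw [← Finset.add_sum_erase _ _ (Finset.mem_univ j), update_self]
      congr 1
      refine Finset.sum_congr rfl fun i hi => ?_
      rw [update_of_ne (Finset.ne_of_mem_erase hi)]
    refine ⟨fn + ((r + ∑ i ∈ Finset.univ.erase j, wt fc fs fB fn (u i)) + wt fc fs fB fn z),
      ?_, ?_⟩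
    · rw [wt, e1, h1]; abel
    · rw [wt, e2, h2]; abel
  | tail n u z z' _ ih =>
    obtain ⟨a, b, h, ih⟩ := ih
    refine ⟨a, b, h, fun A _ fc fs fB fn => ?_⟩
    obtain ⟨r, h1, h2⟩ := ih A fc fs fB fn
    refine ⟨fn + ((∑ i, wt fc fs fB fn (u i)) + r), ?_, ?_⟩
    · rw [wt, h1]; abel
    · rw [wt, h2]; abel

/-! ### counting -/

/-- types of special constants -/
inductive Ty : Type
  | tE | tO | t0 | t1 | tM
  deriving DecidableEq

/-- constants of a type -/
def isT : Ty → Cst → Bool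
  | .tE, .E => true
  | .tO, .om _ => true
  | .t0, .k0 _ => true
  | .t1, .k1 _ => true
  | .tM, .mm _ => true
  | _, _ => false

/-- number of constants of a type -/
def cnt (T : Ty) : G Nd K → ℕ := wt (fun x => if isT T x then 1 else 0) 0 0 0

@[simp] theorem cnt_c (T : Ty) (x : Cst) : cnt T (.c x : G Nd K) = if isT T x then 1 else 0 := rfl
@[simp] theorem cnt_s (T : Ty) (t : G Nd K) : cnt T (.s t) = cnt T t := by simp [cnt, wt]
@[simp] theorem cnt_B (T : Ty) (t : G Nd K) : cnt T (.B t) = cnt T t := by simp [cnt, wt]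
@[simp] theorem cnt_nd (T : Ty) (a : Nd) (u : Fin (K + 1) → G Nd K) (z : G Nd K) :
    cnt T (.nd a u z) = (∑ j, cnt T (u j)) + cnt T z := by simp [cnt, wt]

theorem cnt_reg_le (T : Ty) (a : Nd) (u : Fin (K + 1) → G Nd K) (z : G Nd K)
    (j : Fin (K + 1)) : cnt T (u j) + cnt T z ≤ cnt T (.nd a u z) := by
  rw [cnt_nd]
  have : cnt T (u j) ≤ ∑ i, cnt T (u i) :=
    Finset.single_le_sum (f := fun i => cnt T (u i)) (fun _ _ => Nat.zero_le _)
      (Finset.mem_univ j)
  omega

/-- the type created by a step -/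
def mk : Lab → Option Ty
  | .cut0 => some .t0
  | .cut1 => some .t1
  | .m0 => some .tM
  | .m1 => some .tM
  | .fin => some .tE
  | .garb => some .tO
  | _ => none

theorem rt_cnt {l : Lab} {a b : G Nd K} (h : Rt M l a b) (T : Ty) :
    cnt T b ≤ cnt T a + if mk l = some T then 1 else 0 := by
  cases h with
  | pr u z _ =>
    have := cnt_reg_le T M.st u z 0
    omega
  | _ => cases T <;> simp [isT, mk]

theorem cnt_le {l : Lab} {t t' : G Nd K} (h : St M l t t') (T : Ty) :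
    cnt T t' ≤ cnt T t + if mk l = some T then 1 else 0 := by
  obtain ⟨a, b, h1, h2⟩ := ctx h
  obtain ⟨r, h3, h4⟩ := h2 ℕ (fun x => if isT T x then 1 else 0) 0 0 0
  have h5 := rt_cnt h1 T
  change cnt T t = cnt T a + r at h3
  change cnt T t' = cnt T b + r at h4
  omega

theorem cnt_m0 {t t' : G Nd K} (h : St M .m0 t t') : cnt .t0 t' + 1 = cnt .t0 t := by
  obtain ⟨a, b, h1, h2⟩ := ctx h
  obtain ⟨r, h3, h4⟩ := h2 ℕ (fun x => if isT .t0 x then 1 else 0) 0 0 0
  change cnt .t0 t = cnt .t0 a + r at h3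
  change cnt .t0 t' = cnt .t0 b + r at h4
  cases h1
  simp [isT] at h3 h4
  omega

theorem cnt_m1 {t t' : G Nd K} (h : St M .m1 t t') : cnt .t1 t' + 1 = cnt .t1 t := by
  obtain ⟨a, b, h1, h2⟩ := ctx h
  obtain ⟨r, h3, h4⟩ := h2 ℕ (fun x => if isT .t1 x then 1 else 0) 0 0 0
  change cnt .t1 t = cnt .t1 a + r at h3
  change cnt .t1 t' = cnt .t1 b + r at h4
  cases h1
  simp [isT] at h3 h4
  omega

/-- the measure -/
def mu : G Nd K → ℕ := wt (fun x => match x with
  | .z _ => 9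
  | .nil => 7
  | .E => 8
  | .om _ => 8
  | .k0 _ => 8
  | .k1 _ => 8
  | .mm _ => 7
  | .ch i => i.val) 9 7 10

/-- steps on cycles -/
def isCyc : Lab → Bool
  | .cE => true
  | .cO => true
  | .c0 => true
  | .c1 => true
  | .cM => true
  | _ => false

theorem rt_mu {l : Lab} {a b : G Nd K} (h : Rt M l a b) :
    (isCyc l = true ∧ mu b = mu a) ∨ (isCyc l = false ∧ mu b < mu a) := by
  cases h with
  | pr u z _ =>
    right
    refine ⟨rfl, ?_⟩
    have : mu (u 0) ≤ ∑ i, mu (u i) :=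
      Finset.single_le_sum (f := fun i => mu (u i)) (fun _ _ => Nat.zero_le _) (Finset.mem_univ 0)
    simp only [mu, wt] at this ⊢
    omega
  | garb t h =>
    right
    refine ⟨rfl, ?_⟩
    cases h <;> simp only [mu, wt] <;> omega
  | col t h =>
    right
    refine ⟨rfl, ?_⟩
    change 5 < _
    cases a with
    | c x => cases x <;> simp_all [mu, wt, colr]
    | s t => simp only [mu, wt]; omega
    | B t => simp only [mu, wt]; omega
    | nd a u z => simp only [mu, wt]; omega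
  | chn i => right; simp [mu, wt, isCyc]
  | cut0 => right; simp [mu, wt, isCyc]
  | cut1 => right; refine ⟨rfl, ?_⟩; simp only [mu, wt]; omega
  | m0 => right; simp [mu, wt, isCyc]
  | m1 => right; simp [mu, wt, isCyc]
  | fin => right; refine ⟨rfl, ?_⟩; simp only [mu, wt]; omega
  | sB => right; refine ⟨rfl, ?_⟩; simp only [mu, wt]; omega
  | Bs => right; refine ⟨rfl, ?_⟩; simp only [mu, wt]; omega
  | Bz => right; simp [mu, wt, isCyc]
  | ns => right; refine ⟨rfl, ?_⟩; change 1 < _; simp only [mu, wt]; omega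
  | nz => right; simp [mu, wt, isCyc]
  | zz => right; simp [mu, wt, isCyc]
  | bb => right; refine ⟨rfl, ?_⟩; change 3 < _; simp only [mu, wt]; omega
  | cst => right; refine ⟨rfl, ?_⟩; change 6 < _; simp only [mu, wt]; omega
  | _ => left; exact ⟨rfl, rfl⟩

theorem st_mu {l : Lab} {t t' : G Nd K} (h : St M l t t') :
    (isCyc l = true ∧ mu t' = mu t) ∨ (isCyc l = false ∧ mu t' < mu t) := by
  obtain ⟨a, b, h1, h2⟩ := ctx h
  obtain ⟨r, h3, h4⟩ := h2 ℕ (fun x => match x with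
    | .z _ => 9
    | .nil => 7
    | .E => 8
    | .om _ => 8
    | .k0 _ => 8
    | .k1 _ => 8
    | .mm _ => 7
    | .ch i => i.val) 9 7 10
  change mu t = mu a + r at h3
  change mu t' = mu b + r at h4
  rcases rt_mu h1 with ⟨h5, h6⟩ | ⟨h5, h6⟩
  · left; exact ⟨h5, by omega⟩
  · right; exact ⟨h5, by omega⟩

end Pool.Agent.X238.Osr
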